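import Pool.Agent.Lib.MP_a325a5_ag.MU.AN.Defs
import Pool.Agent.Lib.ModPoly29.ModEq

/-! The action of integral matrices on the upper half-plane. -/

set_option autoImplicit false

namespace Pool.Agent.Lib.MP_a325a5_ag.MU

open Polynomial UpperHalfPlane ModularForm ModularFormClass EisensteinSeries MatrixGroups

private theorem act_im (A : Matrix (Fin 2) (Fin 2) ℤ) (τ : ℍ) (w : ℂ)
    (hw : w * ((A 1 0 : ℂ) * τ + (A 1 1 : ℂ)) = (A 0 0 : ℂ) * τ + (A 0 1 : ℂ)) :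
    w.im * Complex.normSq ((A 1 0 : ℂ) * τ + (A 1 1 : ℂ)) = (A.det : ℝ) * τ.im := by
  have h1 : w * ((A 1 0 : ℂ) * τ + (A 1 1 : ℂ)) * (starRingEnd ℂ) ((A 1 0 : ℂ) * τ + (A 1 1 : ℂ)) =
      ((A 0 0 : ℂ) * τ + (A 0 1 : ℂ)) * (starRingEnd ℂ) ((A 1 0 : ℂ) * τ + (A 1 1 : ℂ)) := by
    rw [hw]
  rw [mul_assoc, Complex.mul_conj] at h1
  have h2 := congrArg Complex.im h1
  rw [Complex.im_mul_ofReal] at h2
  rw [h2, Matrix.det_fin_two]
  simp only [Complex.mul_im, Complex.add_im, Complex.add_re, Complex.mul_re, Complex.conj_re,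
    Complex.conj_im, Complex.intCast_re, Complex.intCast_im, UpperHalfPlane.coe_re,
    UpperHalfPlane.coe_im]
  push_cast
  ring

private theorem act_ne (A : Matrix (Fin 2) (Fin 2) ℤ) (hA : A.det ≠ 0) (τ : ℍ) :
    ((A 1 0 : ℂ) * τ + (A 1 1 : ℂ)) ≠ 0 := by
  intro h
  have him := congrArg Complex.im h
  have hre := congrArg Complex.re h
  simp only [Complex.mul_im, Complex.add_im, Complex.add_re, Complex.mul_re,
    Complex.intCast_re, Complex.intCast_im, UpperHalfPlane.coe_re, UpperHalfPlane.coe_im,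
    Complex.zero_im, Complex.zero_re, zero_mul, add_zero, sub_zero] at him hre
  have h1 : (A 1 0 : ℝ) = 0 := by
    rcases mul_eq_zero.mp him with h2 | h2
    · exact h2
    · exact absurd h2 τ.im_pos.ne'
  rw [h1, zero_mul, zero_add] at hre
  apply hA
  have h3 : A 1 0 = 0 := by exact_mod_cast h1
  have h4 : A 1 1 = 0 := by exact_mod_cast hre
  rw [Matrix.det_fin_two, h3, h4]
  ring

theorem Act.exists (A : Matrix (Fin 2) (Fin 2) ℤ) (hA : 0 < A.det) (τ : ℍ) : ∃ τ', Act A τ τ' := by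
  have hne := act_ne A hA.ne' τ
  have hw : (((A 0 0 : ℂ) * τ + (A 0 1 : ℂ)) / ((A 1 0 : ℂ) * τ + (A 1 1 : ℂ))) *
      ((A 1 0 : ℂ) * τ + (A 1 1 : ℂ)) = (A 0 0 : ℂ) * τ + (A 0 1 : ℂ) := div_mul_cancel₀ _ hne
  have h1 := act_im A τ _ hw
  have h2 : 0 < Complex.normSq ((A 1 0 : ℂ) * τ + (A 1 1 : ℂ)) := Complex.normSq_pos.mpr hne
  have h3 : (0 : ℝ) < A.det := by exact_mod_cast hA
  have h4 : 0 < (((A 0 0 : ℂ) * τ + (A 0 1 : ℂ)) / ((A 1 0 : ℂ) * τ + (A 1 1 : ℂ))).im := by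
    have h5 : 0 < (A.det : ℝ) * τ.im := mul_pos h3 τ.im_pos
    rw [← h1] at h5
    exact (mul_pos_iff_of_pos_right h2).mp h5
  exact ⟨⟨_, h4⟩, hw⟩

theorem Act.unique {A : Matrix (Fin 2) (Fin 2) ℤ} (hA : A.det ≠ 0) {τ τ₁ τ₂ : ℍ}
    (h1 : Act A τ τ₁) (h2 : Act A τ τ₂) : τ₁ = τ₂ := by
  have hne := act_ne A hA τ
  unfold Act at h1 h2
  exact UpperHalfPlane.ext (mul_right_cancel₀ hne (h1.trans h2.symm))

theorem Act.mul {A B : Matrix (Fin 2) (Fin 2) ℤ} {τ τ' τ'' : ℍ} (h1 : Act A τ τ')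
    (h2 : Act B τ' τ'') : Act (B * A) τ τ'' := by
  unfold Act at *
  simp only [Matrix.mul_apply, Fin.sum_univ_two]
  push_cast
  linear_combination (((A 1 0 : ℂ) * τ + (A 1 1 : ℂ))) * h2 +
    ((B 0 0 : ℂ) - (B 1 0 : ℂ) * (τ'' : ℂ)) * h1

/-- `A` may be divided by a common factor. -/
theorem Act.of_smul {A : Matrix (Fin 2) (Fin 2) ℤ} {m : ℤ} (hm : m ≠ 0) {τ τ' : ℍ}
    (h : Act (m • A) τ τ') : Act A τ τ' := by
  unfold Act at *
  simp only [Matrix.smul_apply, smul_eq_mul] at h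
  push_cast at h
  have hm' : (m : ℂ) ≠ 0 := by exact_mod_cast hm
  apply mul_left_cancel₀ hm'
  linear_combination h

theorem Act.adj {A : Matrix (Fin 2) (Fin 2) ℤ} (hA : A.det ≠ 0) {τ τ' : ℍ} (h : Act A τ τ') :
    Act A.adjugate τ' τ := by
  unfold Act at *
  rw [Matrix.adjugate_fin_two]
  simp only [Matrix.of_apply, Matrix.cons_val', Matrix.cons_val_zero, Matrix.cons_val_one,
    Matrix.cons_val_fin_one]
  push_cast
  linear_combination (-1 : ℂ) * h

theorem Act.det_pos {A : Matrix (Fin 2) (Fin 2) ℤ} (hA : A.det ≠ 0) {τ τ' : ℍ}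
    (h : Act A τ τ') : 0 < A.det := by
  have hne := act_ne A hA τ
  have h1 := act_im A τ _ h
  have h2 : 0 < Complex.normSq ((A 1 0 : ℂ) * τ + (A 1 1 : ℂ)) := Complex.normSq_pos.mpr hne
  have h3 : 0 < (A.det : ℝ) * τ.im := by
    rw [← h1]
    exact mul_pos τ'.im_pos h2
  have h4 : (0 : ℝ) < A.det := (mul_pos_iff_of_pos_right τ.im_pos).mp h3
  exact_mod_cast h4

theorem act_sl (γ : SL(2, ℤ)) (τ : ℍ) : Act γ.1 τ (γ • τ) := by
  have hne : ((γ.1 1 0 : ℂ) * τ + (γ.1 1 1 : ℂ)) ≠ 0 :=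
    act_ne γ.1 (by rw [γ.2]; exact one_ne_zero) τ
  unfold Act
  rw [UpperHalfPlane.coe_specialLinearGroup_apply]
  simp only [algebraMap_int_eq, eq_intCast, Complex.ofReal_intCast]
  exact div_mul_cancel₀ _ hne

theorem act_tpt {N : ℕ} (hN : 1 ≤ N) {t : ℕ × ℕ × ℕ} (ht : t ∈ triples N) (τ : ℍ) :
    Act (tm t) τ (tpt t τ) := by
  obtain ⟨a, b, d⟩ := t
  unfold triples at ht
  rw [Finset.mem_filter] at ht
  obtain ⟨-, had, -, -⟩ := ht
  simp only at had
  have ha : 0 < a := by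
    rcases Nat.eq_zero_or_pos a with h | h
    · rw [h, zero_mul] at had; omega
    · exact h
  have hd : 0 < d := by
    rcases Nat.eq_zero_or_pos d with h | h
    · rw [h, mul_zero] at had; omega
    · exact h
  have hd' : (d : ℂ) ≠ 0 := by exact_mod_cast hd.ne'
  have him : 0 < (((a : ℂ) * τ + b) / d).im := by
    rw [Complex.div_natCast_im]
    simp only [Complex.add_im, Complex.mul_im, Complex.natCast_re, Complex.natCast_im, zero_mul,
      add_zero, UpperHalfPlane.coe_im]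
    have h1 := τ.im_pos
    have h2 : (0 : ℝ) < a := by exact_mod_cast ha
    have h3 : (0 : ℝ) < d := by exact_mod_cast hd
    positivity
  unfold Act tpt tm
  rw [UpperHalfPlane.ofComplex_apply_of_im_pos him]
  simp only [Matrix.of_apply, Matrix.cons_val', Matrix.cons_val_zero, Matrix.cons_val_one,
    Matrix.cons_val_fin_one]
  push_cast
  simp only [zero_mul, zero_add]
  exact div_mul_cancel₀ _ hd'

theorem jInv_sl (γ : SL(2, ℤ)) (τ : ℍ) : jInv (γ • τ) = jInv τ := by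
  have h : ((γ • τ : ℍ) : ℂ) * ((γ.1 1 0 : ℂ) * τ + (γ.1 1 1 : ℂ)) =
      (γ.1 0 0 : ℂ) * τ + (γ.1 0 1 : ℂ) := act_sl γ τ
  have hne : ((γ.1 1 0 : ℂ) * τ + (γ.1 1 1 : ℂ)) ≠ 0 :=
    act_ne γ.1 (by rw [γ.2]; exact one_ne_zero) τ
  have h4 := ModPoly29.level1_eq (E₄) γ τ (γ • τ) h
  have h12 := ModPoly29.level1_eq (CuspForm.discriminant) γ τ (γ • τ) h
  have h12' : discriminant (γ • τ) =
      ((γ.1 1 0 : ℂ) * τ + (γ.1 1 1 : ℂ)) ^ (12 : ℤ) * discriminant τ := h12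
  have hΔ := discriminant_ne_zero τ
  generalize ((γ.1 1 0 : ℂ) * τ + (γ.1 1 1 : ℂ)) = x at h4 h12' hne
  unfold jInv
  rw [h4, h12', zpow_ofNat, zpow_ofNat]
  generalize (E₄ τ) = y
  generalize discriminant τ = z at hΔ
  field_simp

/-- A matrix which is not scalar and fixes `τ`: then `τ` is quadratic. -/
theorem Act.quad {A : Matrix (Fin 2) (Fin 2) ℤ} (hA : A.det ≠ 0) (hs : ¬ Scal A) {τ : ℍ}
    (h : Act A τ τ) : Quad τ := by
  refine ⟨A 1 0, A 1 1 - A 0 0, -A 0 1, ?_, ?_⟩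
  · intro h0
    apply hs
    unfold Act at h
    rw [h0] at h
    have h1 : ((A 1 1 : ℂ) - (A 0 0 : ℂ)) * τ = (A 0 1 : ℂ) := by
      push_cast at h
      linear_combination h
    have h2 := congrArg Complex.im h1
    simp only [Complex.mul_im, Complex.sub_im, Complex.sub_re, Complex.intCast_re,
      Complex.intCast_im, UpperHalfPlane.coe_im, sub_zero, zero_mul, add_zero] at h2
    have h3 : ((A 1 1 : ℝ) - (A 0 0 : ℝ)) = 0 := by
      rcases mul_eq_zero.mp h2 with h4 | h4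
      · exact h4
      · exact absurd h4 τ.im_pos.ne'
    have h4 : A 0 0 = A 1 1 := by
      have : (A 1 1 : ℝ) = (A 0 0 : ℝ) := by linarith
      exact_mod_cast this.symm
    refine ⟨?_, h0, h4⟩
    rw [h4, sub_self, zero_mul] at h1
    exact_mod_cast h1.symm
  · unfold Act at h
    push_cast
    linear_combination h

end Pool.Agent.Lib.MP_a325a5_ag.MU
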