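import Pool.Agent.Lib.MP_a325a5_ag.MU.Mod

/-!
A modular form of level one and weight `12 d` is `Δ ^ d` times a polynomial in `j`.
-/

set_option autoImplicit false

namespace Pool.Agent.Lib.MP_a325a5_ag.MU

open Polynomial UpperHalfPlane ModularForm ModularFormClass EisensteinSeries MatrixGroups

/-- A modular form of level one and weight `12 d` is `Δ ^ d` times a polynomial in `j`. -/
theorem form_poly (d : ℕ) (f : ModularForm 𝒮ℒ ((12 * d : ℕ) : ℤ)) :
    ∃ P : ℂ[X], P.natDegree ≤ d ∧ ∀ τ : ℍ, f τ = discriminant τ ^ d * P.eval (jInv τ) := by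
  induction d with
  | zero =>
    obtain ⟨c, hc⟩ := levelOne_weight_zero_const (ModularForm.mcast (b := 0) (by simp) f)
    rw [coe_mcast] at hc
    refine ⟨C c, by simp, fun τ => ?_⟩
    rw [hc]
    simp
  | succ d ih =>
    let E4p : ModularForm 𝒮ℒ ((12 * (d + 1) : ℕ) : ℤ) :=
      ModularForm.mcast (by push_cast; ring) (E₄.pow (3 * (d + 1)))
    have hE : (E4p : ℍ → ℂ) = (E₄ : ℍ → ℂ) ^ (3 * (d + 1)) := by
      simp only [E4p, coe_mcast, ModularForm.coe_pow]
    have hE0 : (qExpansion 1 E4p).coeff 0 = 1 := by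
      have h4 := E_qExpansion_coeff_zero (k := 4) (by norm_num) ⟨2, rfl⟩
      simp only [E4p, coe_mcast]
      rw [ModularForm.qExpansion_pow one_pos one_mem_strictPeriods_SL]
      rw [PowerSeries.coeff_zero_eq_constantCoeff] at *
      simp [h4]
    obtain ⟨c, h, hh⟩ : ∃ c : ℂ, ModularForm.IsCuspForm (f - c • E4p) :=
      ⟨_, ModularForm.sub_smul_isCuspForm f E4p hE0⟩
    obtain ⟨P, hP, hPe⟩ := ih (ModularForm.mcast (by push_cast; ring)
      (CuspForm.discriminantEquiv h))
    refine ⟨P + C c * X ^ (d + 1), ?_, fun τ => ?_⟩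
    · refine (natDegree_add_le _ _).trans (max_le (hP.trans (Nat.le_succ d)) ?_)
      exact natDegree_C_mul_X_pow_le _ _
    · have e1 : (h : ℍ → ℂ) = (f - c • E4p : ModularForm 𝒮ℒ _) := congrArg DFunLike.coe hh
      have e2 : h τ = f τ - c * E4p τ := congrFun e1 τ
      have e3 : discriminant τ * (CuspForm.discriminantEquiv h) τ = h τ :=
        discriminant_mul_discriminantEquiv_apply h τ
      have e4 := hPe τ
      rw [mcast_apply] at e4
      have e5 : f τ = discriminant τ * (discriminant τ ^ d * P.eval (jInv τ)) +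
          c * (E₄ τ) ^ (3 * (d + 1)) := by
        rw [← e4, e3, e2, hE]
        simp
      rw [e5, eval_add, eval_mul, eval_C, eval_pow, eval_X]
      have hd := discriminant_ne_zero τ
      have e6 : discriminant τ ^ (d + 1) * jInv τ ^ (d + 1) = (E₄ τ) ^ (3 * (d + 1)) := by
        rw [← mul_pow, jInv, mul_div_cancel₀ _ hd, pow_mul]
      rw [← e6]
      ring

end Pool.Agent.Lib.MP_a325a5_ag.MU
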