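import Pool.Agent.Lib.MP_a325a5_ag.MU.AN.Mat
import Pool.Agent.Lib.ModPoly29.Forms

/-! The product over the triples is a form of level one. -/

set_option autoImplicit false

namespace Pool.Agent.Lib.MP_a325a5_ag.MU

open Polynomial UpperHalfPlane ModularForm ModularFormClass EisensteinSeries MatrixGroups
open scoped Manifold

/-- The number of triples. -/
noncomputable def psi (N : ℕ) : ℕ := (triples N).card

private theorem p6_triple {N : ℕ} (hN : 1 ≤ N) {t : ℕ × ℕ × ℕ} (ht : t ∈ triples N) :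
    1 ≤ t.1 ∧ 1 ≤ t.2.2 := by
  rw [triples, Finset.mem_filter] at ht
  obtain ⟨-, h1, -, -⟩ := ht
  constructor
  · rcases Nat.eq_zero_or_pos t.1 with h | h
    · rw [h, zero_mul] at h1; omega
    · exact h
  · rcases Nat.eq_zero_or_pos t.2.2 with h | h
    · rw [h, mul_zero] at h1; omega
    · exact h

private theorem p6_im_pos {N : ℕ} (hN : 1 ≤ N) {t : ℕ × ℕ × ℕ} (ht : t ∈ triples N) {z : ℂ}
    (hz : 0 < z.im) : 0 < (((t.1 : ℂ) * z + t.2.1) / t.2.2).im := by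
  obtain ⟨h1, h2⟩ := p6_triple hN ht
  have h3 : (0 : ℝ) < t.1 := by exact_mod_cast h1
  have h4 : (0 : ℝ) < t.2.2 := by exact_mod_cast h2
  rw [Complex.div_natCast_im]
  simp only [Complex.add_im, Complex.mul_im, Complex.natCast_re, Complex.natCast_im, zero_mul,
    add_zero]
  positivity

private theorem p6_coe_tpt {N : ℕ} (hN : 1 ≤ N) {t : ℕ × ℕ × ℕ} (ht : t ∈ triples N) (τ : ℍ) :
    (tpt t τ : ℂ) = ((t.1 : ℂ) * τ + t.2.1) / t.2.2 := by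
  rw [tpt, ofComplex_apply_of_im_pos (p6_im_pos hN ht τ.im_pos)]

private theorem p6_mdiff {N : ℕ} (hN : 1 ≤ N) {t : ℕ × ℕ × ℕ} (ht : t ∈ triples N) {f : ℍ → ℂ}
    (hf : MDiff f) : MDiff (fun τ => f (tpt t τ)) := by
  rw [UpperHalfPlane.mdifferentiable_iff] at hf ⊢
  set φ : ℂ → ℂ := fun z => ((t.1 : ℂ) * z + t.2.1) / t.2.2 with hφ
  have hφd : Differentiable ℂ φ := by
    rw [hφ]
    fun_prop
  have h1 : Set.MapsTo φ upperHalfPlaneSet upperHalfPlaneSet := fun z hz => p6_im_pos hN ht hz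
  refine (hf.comp hφd.differentiableOn h1).congr fun z hz => ?_
  simp only [Function.comp_apply]
  congr 1
  rw [tpt, ofComplex_apply_of_im_pos hz]

private theorem p6_bdd {N : ℕ} (hN : 1 ≤ N) {t : ℕ × ℕ × ℕ} (ht : t ∈ triples N) {f : ℍ → ℂ}
    (hf : IsBoundedAtImInfty f) : IsBoundedAtImInfty (fun τ => f (tpt t τ)) := by
  rw [isBoundedAtImInfty_iff] at hf ⊢
  obtain ⟨M, A, h⟩ := hf
  obtain ⟨h1, h2⟩ := p6_triple hN ht
  have h3 : (1 : ℝ) ≤ t.1 := by exact_mod_cast h1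
  have h4 : (0 : ℝ) < t.2.2 := by exact_mod_cast h2
  refine ⟨M, t.2.2 * |A|, fun τ hτ => h _ ?_⟩
  have h5 : (tpt t τ).im = t.1 * τ.im / t.2.2 := by
    have h6 := congrArg Complex.im (p6_coe_tpt hN ht τ)
    rw [Complex.div_natCast_im] at h6
    simpa using h6
  rw [h5, le_div_iff₀ h4]
  have h7 : A * t.2.2 ≤ t.2.2 * |A| := by
    rw [mul_comm]
    exact mul_le_mul_of_nonneg_left (le_abs_self A) h4.le
  have h8 : τ.im ≤ t.1 * τ.im := le_mul_of_one_le_left τ.im_pos.le h3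
  linarith

/-- The functions on `ℍ` which are holomorphic and bounded at `i ∞`. -/
private def p6R : Subring (ℍ → ℂ) where
  carrier := {f | MDiff f ∧ IsBoundedAtImInfty f}
  mul_mem' := fun hf hg => ⟨hf.1.mul hg.1, ModPoly29.bdd_mul hf.2 hg.2⟩
  one_mem' := ⟨mdifferentiable_const, Filter.const_boundedAtFilter _ 1⟩
  add_mem' := fun hf hg => ⟨hf.1.add hg.1, hf.2.add hg.2⟩
  zero_mem' := ⟨mdifferentiable_const, Filter.const_boundedAtFilter _ 0⟩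
  neg_mem' := fun hf => ⟨hf.1.neg, hf.2.neg⟩

private theorem p6_slash {N : ℕ} (hN : 1 ≤ N) {F : Type*} [FunLike F ℍ ℂ]
    [SlashInvariantFormClass F 𝒮ℒ 12] (f : F) (γ δ : SL(2, ℤ)) {t t' : ℕ × ℕ × ℕ}
    (ht : t ∈ triples N) (ht' : t' ∈ triples N) (h : tm t * γ.1 = δ.1 * tm t') (τ : ℍ) :
    f (tpt t (γ • τ)) = ((t.2.2 : ℂ) / t'.2.2) ^ 12 *
      (((γ 1 0 : ℤ) : ℂ) * τ + ((γ 1 1 : ℤ) : ℂ)) ^ 12 * f (tpt t' τ) := by
  have hγ : (((γ 1 0 : ℤ) : ℂ) * τ + ((γ 1 1 : ℤ) : ℂ)) ≠ 0 := by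
    have := UpperHalfPlane.denom_ne_zero (γ : GL (Fin 2) ℝ) τ
    simpa [UpperHalfPlane.denom] using this
  have hd : (t.2.2 : ℂ) ≠ 0 := by
    have := (p6_triple hN ht).2
    exact_mod_cast (by omega : t.2.2 ≠ 0)
  have hd' : (t'.2.2 : ℂ) ≠ 0 := by
    have := (p6_triple hN ht').2
    exact_mod_cast (by omega : t'.2.2 ≠ 0)
  have e00 := congrFun (congrFun h 0) 0
  have e01 := congrFun (congrFun h 0) 1
  have e10 := congrFun (congrFun h 1) 0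
  have e11 := congrFun (congrFun h 1) 1
  simp only [tm, Matrix.mul_apply, Fin.sum_univ_two, Matrix.of_apply, Matrix.cons_val',
    Matrix.cons_val_zero, Matrix.cons_val_one, Matrix.cons_val_fin_one, zero_mul, mul_zero,
    add_zero, zero_add] at e00 e01 e10 e11
  have E00 : (t.1 : ℂ) * ((γ 0 0 : ℤ) : ℂ) + (t.2.1 : ℂ) * ((γ 1 0 : ℤ) : ℂ) =
      ((δ 0 0 : ℤ) : ℂ) * (t'.1 : ℂ) := by exact_mod_cast e00
  have E01 : (t.1 : ℂ) * ((γ 0 1 : ℤ) : ℂ) + (t.2.1 : ℂ) * ((γ 1 1 : ℤ) : ℂ) =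
      ((δ 0 0 : ℤ) : ℂ) * (t'.2.1 : ℂ) + ((δ 0 1 : ℤ) : ℂ) * (t'.2.2 : ℂ) := by
    exact_mod_cast e01
  have E10 : (t.2.2 : ℂ) * ((γ 1 0 : ℤ) : ℂ) = ((δ 1 0 : ℤ) : ℂ) * (t'.1 : ℂ) := by
    exact_mod_cast e10
  have E11 : (t.2.2 : ℂ) * ((γ 1 1 : ℤ) : ℂ) =
      ((δ 1 0 : ℤ) : ℂ) * (t'.2.1 : ℂ) + ((δ 1 1 : ℤ) : ℂ) * (t'.2.2 : ℂ) := by
    exact_mod_cast e11
  have hγτ : ((γ • τ : ℍ) : ℂ) * (((γ 1 0 : ℤ) : ℂ) * τ + ((γ 1 1 : ℤ) : ℂ)) =
      ((γ 0 0 : ℤ) : ℂ) * τ + ((γ 0 1 : ℤ) : ℂ) := by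
    rw [UpperHalfPlane.coe_specialLinearGroup_apply]
    simp only [algebraMap_int_eq, eq_intCast, Complex.ofReal_intCast]
    rw [div_mul_cancel₀ _ hγ]
  -- the automorphy factor
  have hj : ((δ 1 0 : ℤ) : ℂ) * (tpt t' τ : ℂ) + ((δ 1 1 : ℤ) : ℂ) =
      (t.2.2 : ℂ) / t'.2.2 * (((γ 1 0 : ℤ) : ℂ) * τ + ((γ 1 1 : ℤ) : ℂ)) := by
    rw [p6_coe_tpt hN ht']
    field_simp
    linear_combination (-(τ : ℂ)) * E10 - E11
  have key := ModPoly29.level1_eq f δ (tpt t' τ) (tpt t (γ • τ)) (by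
    rw [hj, p6_coe_tpt hN ht, p6_coe_tpt hN ht']
    field_simp
    linear_combination (t.1 : ℂ) * hγτ + (τ : ℂ) * E00 + E01)
  rw [key]
  change (((δ 1 0 : ℤ) : ℂ) * (tpt t' τ : ℂ) + ((δ 1 1 : ℤ) : ℂ)) ^ (12 : ℤ) * _ = _
  rw [hj]
  have e12 : ∀ z : ℂ, z ^ (12 : ℤ) = z ^ (12 : ℕ) := fun z => by norm_cast
  rw [e12, mul_pow]

/-- The coefficients of `∏ (Δ(tpt t τ) Y - E₄(tpt t τ)³)` are forms of weight `12 psi N`. -/
theorem exists_forms {N : ℕ} (hN : 1 ≤ N) : ∃ f : ℕ → ModularForm 𝒮ℒ ((12 * psi N : ℕ) : ℤ),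
    ∀ (τ : ℍ) (i : ℕ), f i τ = (∏ t ∈ triples N,
      (C (discriminant (tpt t τ)) * X - C ((E₄ (tpt t τ)) ^ 3))).coeff i := by
  classical
  -- holomorphic and bounded
  have hbdd : ∀ (k : ℤ) (g : ModularForm 𝒮ℒ k), IsBoundedAtImInfty g := fun k g =>
    ModularFormClass.bdd_at_infty g
  let Dd : {t : ℕ × ℕ × ℕ // t ∈ triples N} → p6R := fun t =>
    ⟨fun τ => discriminant (tpt t.1 τ), by
      refine ⟨p6_mdiff hN t.2 (f := discriminant) ?_, p6_bdd hN t.2 (f := discriminant) ?_⟩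
      · exact CuspForm.discriminant.holo'
      · exact (discriminant_isZeroAtImInfty).isBoundedAtImInfty⟩
  let Ee : {t : ℕ × ℕ × ℕ // t ∈ triples N} → p6R := fun t =>
    ⟨fun τ => (E₄ (tpt t.1 τ)) ^ 3, by
      have h1 : (fun τ => E₄ (tpt t.1 τ)) ∈ p6R :=
        ⟨p6_mdiff hN t.2 E₄.holo', p6_bdd hN t.2 (hbdd _ _)⟩
      exact p6R.pow_mem h1 3⟩
  let P : Polynomial p6R := ∏ t : {t : ℕ × ℕ × ℕ // t ∈ triples N}, (C (Dd t) * X - C (Ee t))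
  let ev : ℍ → p6R →+* ℂ := fun τ => (Pi.evalRingHom (fun _ : ℍ => ℂ) τ).comp p6R.subtype
  have hP : ∀ τ, P.map (ev τ) = ∏ t ∈ triples N,
      (C (discriminant (tpt t τ)) * X - C ((E₄ (tpt t τ)) ^ 3)) := by
    intro τ
    rw [← Finset.prod_coe_sort, Polynomial.map_prod]
    refine Finset.prod_congr rfl fun t _ => ?_
    rw [Polynomial.map_sub, Polynomial.map_mul, map_C, map_C, map_X]
    rfl
  have hcoeff : ∀ (i : ℕ) (τ : ℍ), (P.coeff i).1 τ = (∏ t ∈ triples N,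
      (C (discriminant (tpt t τ)) * X - C ((E₄ (tpt t τ)) ^ 3))).coeff i := by
    intro i τ
    rw [← hP τ, coeff_map]
    rfl
  -- invariance
  have hinv : ∀ (γ : SL(2, ℤ)) (τ : ℍ), (∏ t ∈ triples N,
      (C (discriminant (tpt t (γ • τ))) * X - C ((E₄ (tpt t (γ • τ))) ^ 3))) =
      C ((((γ 1 0 : ℤ) : ℂ) * τ + ((γ 1 1 : ℤ) : ℂ)) ^ (12 * psi N)) * ∏ t ∈ triples N,
      (C (discriminant (tpt t τ)) * X - C ((E₄ (tpt t τ)) ^ 3)) := by
    intro γ τ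
    obtain ⟨σ, hσ⟩ := exists_perm hN γ
    have hsub : ∀ τ : ℍ, ∏ t ∈ triples N,
        (C (discriminant (tpt t τ)) * X - C ((E₄ (tpt t τ)) ^ 3)) =
        ∏ t : {t : ℕ × ℕ × ℕ // t ∈ triples N},
        (C (discriminant (tpt t.1 τ)) * X - C ((E₄ (tpt t.1 τ)) ^ 3)) := fun τ =>
      (Finset.prod_coe_sort (triples N) fun t =>
        (C (discriminant (tpt t τ)) * X - C ((E₄ (tpt t τ)) ^ 3))).symm
    rw [hsub, hsub]
    set J : ℂ := ((γ 1 0 : ℤ) : ℂ) * τ + ((γ 1 1 : ℤ) : ℂ) with hJ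
    have hfac : ∀ t : {t : ℕ × ℕ × ℕ // t ∈ triples N},
        (C (discriminant (tpt t.1 (γ • τ))) * X - C ((E₄ (tpt t.1 (γ • τ))) ^ 3)) =
        C (((t.1.2.2 : ℂ) / (σ t).1.2.2) ^ 12) * (C (J ^ 12) *
          (C (discriminant (tpt (σ t).1 τ)) * X - C ((E₄ (tpt (σ t).1 τ)) ^ 3))) := by
      intro t
      obtain ⟨δ, hδ⟩ := hσ t
      have h1 := p6_slash hN CuspForm.discriminant γ δ t.2 (σ t).2 hδ τ
      have h2 := p6_slash hN ModPoly29.E4c γ δ t.2 (σ t).2 hδ τ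
      rw [ModPoly29.E4c_apply, ModPoly29.E4c_apply] at h2
      change discriminant (tpt t.1 (γ • τ)) = _ * _ * discriminant (tpt (σ t).1 τ) at h1
      rw [h1, h2]
      simp only [C_mul, C_pow]
      ring
    rw [Finset.prod_congr rfl fun t _ => hfac t, Finset.prod_mul_distrib,
      Finset.prod_mul_distrib]
    have h3 : ∏ t : {t : ℕ × ℕ × ℕ // t ∈ triples N},
        (C (discriminant (tpt (σ t).1 τ)) * X - C ((E₄ (tpt (σ t).1 τ)) ^ 3)) =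
        ∏ t : {t : ℕ × ℕ × ℕ // t ∈ triples N},
        (C (discriminant (tpt t.1 τ)) * X - C ((E₄ (tpt t.1 τ)) ^ 3)) :=
      Equiv.prod_comp σ fun t : {t : ℕ × ℕ × ℕ // t ∈ triples N} =>
        (C (discriminant (tpt t.1 τ)) * X - C ((E₄ (tpt t.1 τ)) ^ 3))
    have h4 : ∏ t : {t : ℕ × ℕ × ℕ // t ∈ triples N},
        C (((t.1.2.2 : ℂ) / (σ t).1.2.2) ^ 12) = 1 := by
      rw [← map_prod, Finset.prod_pow, Finset.prod_div_distrib,
        Equiv.prod_comp σ (fun t : {t : ℕ × ℕ × ℕ // t ∈ triples N} => ((t.1.2.2 : ℕ) : ℂ)),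
        div_self, one_pow, C_1]
      rw [Finset.prod_ne_zero_iff]
      intro t _
      have := (p6_triple hN t.2).2
      exact_mod_cast (by omega : t.1.2.2 ≠ 0)
    rw [h3, h4, one_mul, Finset.prod_const, Finset.card_univ, Fintype.card_coe, ← C_pow,
      ← pow_mul]
    rfl
  refine ⟨fun i =>
    { toFun := (P.coeff i).1
      slash_action_eq' := ?_
      holo' := (P.coeff i).2.1
      bdd_at_cusps' := ?_ }, fun τ i => hcoeff i τ⟩
  all_goals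
    have hsl : ∀ γ : SL(2, ℤ), (P.coeff i).1 ∣[((12 * psi N : ℕ) : ℤ)] γ = (P.coeff i).1 := by
      intro γ
      ext τ
      rw [SL_slash_apply, hcoeff, hcoeff, hinv, coeff_C_mul]
      have hden : UpperHalfPlane.denom (γ : GL (Fin 2) ℝ) τ =
          ((γ 1 0 : ℤ) : ℂ) * τ + ((γ 1 1 : ℤ) : ℂ) := by
        simp [UpperHalfPlane.denom]
      have hne := UpperHalfPlane.denom_ne_zero (γ : GL (Fin 2) ℝ) τ
      rw [hden] at hne ⊢
      rw [zpow_neg, zpow_natCast]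
      field_simp
  · rintro A ⟨A, rfl⟩
    exact hsl A
  · intro c hc
    rw [Subgroup.IsArithmetic.isCusp_iff_isCusp_SL2Z] at hc
    rw [OnePoint.isBoundedAt_iff_forall_SL2Z hc]
    intro γ _
    rw [hsl]
    exact (P.coeff i).2.2

end Pool.Agent.Lib.MP_a325a5_ag.MU
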