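import Pool.Agent.Lib.MP_a325a5_ag.MU.AN.Surj
import Pool.Agent.Lib.MP_a325a5_ag.MU.AN.Prod
import Pool.Agent.Lib.MP_a325a5_ag.MU.AN.Form

/-! The product of all `Y - j((a τ + b) / d)` is a polynomial in `j(τ)` and `Y`. -/

set_option autoImplicit false

namespace Pool.Agent.Lib.MP_a325a5_ag.MU

open Polynomial UpperHalfPlane ModularForm ModularFormClass EisensteinSeries MatrixGroups

private theorem cpoly_factor {ι : Type} (s : Finset ι) (a b : ι → ℂ) (ha : ∀ i, a i ≠ 0) :
    ∏ i ∈ s, (C (a i) * X - C (b i)) = C (∏ i ∈ s, a i) * ∏ i ∈ s, (X - C (b i / a i)) := by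
  rw [map_prod, ← Finset.prod_mul_distrib]
  apply Finset.prod_congr rfl
  intro i _
  rw [mul_sub, ← C_mul, mul_div_cancel₀ _ (ha i)]

private theorem cpoly_natDegree {ι : Type} (s : Finset ι) (b : ι → ℂ) :
    (∏ i ∈ s, (X - C (b i))).natDegree = s.card := by
  rw [natDegree_prod_of_monic _ _ (fun i _ => monic_X_sub_C (b i))]
  simp

/-- A polynomial without zeros is constant. -/
private theorem cpoly_const (P : ℂ[X]) (h : ∀ x, P.eval x ≠ 0) : ∃ c : ℂ, c ≠ 0 ∧ P = C c := by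
  have h1 : P.degree ≤ 0 := by
    by_contra hd
    push Not at hd
    obtain ⟨x, hx⟩ := Complex.exists_root hd
    exact h x hx
  rw [eq_C_of_degree_le_zero h1] at h ⊢
  refine ⟨P.coeff 0, ?_, rfl⟩
  have h2 := h 0
  rwa [eval_C] at h2

theorem exists_cpoly {N : ℕ} (hN : 1 ≤ N) : ∃ P : ℂ[X][X], ∀ τ : ℍ,
    P.map (evalRingHom (jInv τ)) = ∏ t ∈ triples N, (X - C (jInv (tpt t τ))) := by
  obtain ⟨f, hf⟩ := exists_forms hN
  choose p hp using fun i => form_poly (psi N) (f i)
  -- the product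
  have hprod : ∀ τ : ℍ, (∏ t ∈ triples N,
      (C (discriminant (tpt t τ)) * X - C ((E₄ (tpt t τ)) ^ 3))) =
      C (∏ t ∈ triples N, discriminant (tpt t τ)) *
        ∏ t ∈ triples N, (X - C (jInv (tpt t τ))) := fun τ =>
    cpoly_factor (triples N) (fun t => discriminant (tpt t τ)) (fun t => (E₄ (tpt t τ)) ^ 3)
      (fun t => discriminant_ne_zero _)
  have hcoeff : ∀ (τ : ℍ) (i : ℕ), discriminant τ ^ psi N * (p i).eval (jInv τ) =
      (∏ t ∈ triples N, discriminant (tpt t τ)) *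
        (∏ t ∈ triples N, (X - C (jInv (tpt t τ)))).coeff i := by
    intro τ i
    rw [← (hp i).2 τ, hf τ i, hprod τ, coeff_C_mul]
  have htop : ∀ τ : ℍ, discriminant τ ^ psi N * (p (psi N)).eval (jInv τ) =
      ∏ t ∈ triples N, discriminant (tpt t τ) := by
    intro τ
    rw [hcoeff τ (psi N)]
    have h1 := (monic_prod_of_monic (triples N) (fun t => X - C (jInv (tpt t τ)))
      (fun t _ => monic_X_sub_C _)).coeff_natDegree
    rw [cpoly_natDegree (triples N) (fun t => jInv (tpt t τ))] at h1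
    rw [psi, h1, mul_one]
  obtain ⟨c, hc, hpc⟩ := cpoly_const (p (psi N)) (by
    intro x hx
    obtain ⟨τ, rfl⟩ := jInv_surj x
    have h1 := htop τ
    rw [hx, mul_zero] at h1
    exact (Finset.prod_ne_zero_iff.mpr fun t _ => discriminant_ne_zero _) h1.symm)
  refine ⟨∑ i ∈ Finset.range (psi N + 1), C (C c⁻¹ * p i) * X ^ i, fun τ => ?_⟩
  ext i
  rw [coeff_map, finsetSum_coeff]
  have hsum : ∑ b ∈ Finset.range (psi N + 1), (C (C c⁻¹ * p b) * X ^ b : ℂ[X][X]).coeff i =
      if i ∈ Finset.range (psi N + 1) then C c⁻¹ * p i else 0 := by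
    rw [← Finset.sum_ite_eq (Finset.range (psi N + 1)) i (fun b => C c⁻¹ * p b)]
    apply Finset.sum_congr rfl
    intro b _
    rw [coeff_C_mul_X_pow]
  rw [hsum]
  split_ifs with hi
  · rw [coe_evalRingHom, eval_mul, eval_C]
    have h1 := hcoeff τ i
    rw [← htop τ, hpc, eval_C, mul_assoc] at h1
    have h2 : discriminant τ ^ psi N ≠ 0 := pow_ne_zero _ (discriminant_ne_zero τ)
    rw [mul_left_cancel₀ h2 h1, inv_mul_cancel_left₀ hc]
  · rw [map_zero]
    rw [Finset.mem_range, not_lt, psi] at hi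
    symm
    apply coeff_eq_zero_of_natDegree_lt
    rw [cpoly_natDegree]
    omega

end Pool.Agent.Lib.MP_a325a5_ag.MU
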