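import Mathlib

/-!
Linear combinations of power series with rational coefficients.
-/

set_option autoImplicit false

namespace Pool.Agent.Lib.MP_a325a5_ag.MU

theorem ratLin_exists_proj : ∃ l : ℂ →ₗ[ℚ] ℚ, ∀ q : ℚ, l (q : ℂ) = q := by
  obtain ⟨l, hl⟩ := LinearMap.exists_leftInverse_of_injective (Algebra.linearMap ℚ ℂ)
    (LinearMap.ker_eq_bot.2 (algebraMap ℚ ℂ).injective)
  refine ⟨l, fun q => ?_⟩
  have := LinearMap.congr_fun hl q
  simpa using this

/-- If an element of a finite family of power series with rational coefficients is a complex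
linear combination of the others, it is a rational linear combination of them. -/
theorem rat_comb {ι : Type} [Fintype ι] (F : ι → PowerSeries ℂ) (G : PowerSeries ℂ)
    (hF : ∀ i n, ∃ q : ℚ, (F i).coeff n = q) (hG : ∀ n, ∃ q : ℚ, G.coeff n = q) (c : ι → ℂ)
    (h : ∑ i, (PowerSeries.C (c i)) * F i = G) :
    ∃ c' : ι → ℚ, ∑ i, (PowerSeries.C ((c' i : ℚ) : ℂ)) * F i = G := by
  obtain ⟨l, hl⟩ := ratLin_exists_proj
  refine ⟨fun i => l (c i), ?_⟩
  ext n
  choose qF hqF using hF
  obtain ⟨g, hg⟩ := hG n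
  have h1 := congrArg (fun P => PowerSeries.coeff n P) h
  simp only [map_sum, PowerSeries.coeff_C_mul, hqF, hg] at h1 ⊢
  have h2 := congrArg l h1
  rw [map_sum, hl] at h2
  have h3 : ∀ i, l (c i * (qF i n : ℂ)) = l (c i) * qF i n := by
    intro i
    have e : c i * (qF i n : ℂ) = (qF i n) • c i := by
      rw [Algebra.smul_def, mul_comm]
      rfl
    rw [e, map_smul, smul_eq_mul, mul_comm]
  simp only [h3] at h2
  rw [← h2]
  push_cast
  rfl

end Pool.Agent.Lib.MP_a325a5_ag.MU
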