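import Pool.Agent.Lib.MP_a325a5_ag.MU.AN.Defs
import Pool.Agent.Lib.MP_a325a5_ag.MU.AN.RatLin
import Pool.Agent.Lib.ModPoly29.Forms

/-!
A polynomial relation between `j(τ)` and `j(N τ)` with complex coefficients gives one with
rational coefficients.
-/

set_option autoImplicit false

namespace Pool.Agent.Lib.MP_a325a5_ag.MU

open UpperHalfPlane ModularForm ModularFormClass EisensteinSeries MatrixGroups
open Pool.Agent.Lib.ModPoly29
open scoped Manifold

/-- Power series with rational coefficients. -/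
noncomputable def ratJQ : Subring (PowerSeries ℂ) := (PowerSeries.map (Rat.castHom ℂ)).range

theorem ratJ_mem {f : PowerSeries ℂ} : f ∈ ratJQ ↔ ∀ n, ∃ c : ℚ, f.coeff n = c := by
  constructor
  · rintro ⟨g, rfl⟩ n
    exact ⟨g.coeff n, by simp⟩
  · intro h
    choose c hc using h
    refine ⟨PowerSeries.mk c, ?_⟩
    ext n
    simp [hc n]

theorem ratJ_of_Zq {f : PowerSeries ℂ} (h : f ∈ Zq) (n : ℕ) : ∃ c : ℚ, f.coeff n = c := by
  obtain ⟨c, hc⟩ := mem_Zq.1 h n
  exact ⟨c, by rw [hc]; push_cast; rfl⟩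

section

variable {l : ℕ} [NeZero l]

theorem ratJ_self {f : ℍ → ℂ} (hf : Nice f) : f ∈ Rl l ∧ qExpansion l f =
    PowerSeries.mk (fun m => if l ∣ m then (qExpansion 1 f).coeff (m / l) else 0) := by
  have hl : 0 < l := NeZero.pos l
  refine mem_Rl_of_hasSum (l := l) hl hf.1 fun τ => ?_
  have h1 := hf.2 τ
  have h2 : Function.Periodic.qParam (1 : ℝ) τ = Function.Periodic.qParam (l : ℝ) τ ^ l := by
    unfold Function.Periodic.qParam
    rw [← Complex.exp_nat_mul]
    congr 1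
    have hl0 : (l : ℂ) ≠ 0 := by exact_mod_cast hl.ne'
    push_cast
    field_simp
  rw [h2] at h1
  have hinj : Function.Injective (fun m : ℕ => l * m) := by
    intro a b hab
    exact Nat.eq_of_mul_eq_mul_left hl hab
  rw [← hinj.hasSum_iff]
  · convert h1 using 2 with m
    simp only [Function.comp_apply, smul_eq_mul]
    rw [if_pos (dvd_mul_right _ _), Nat.mul_div_cancel_left _ hl, pow_mul]
  · intro m hm
    rw [if_neg, zero_smul]
    rintro ⟨c, rfl⟩
    exact hm ⟨c, rfl⟩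

/-- `E₄³` as an element of the ring. -/
noncomputable def ratJA (l : ℕ) [NeZero l] : Rl l :=
  ⟨fun τ => E4c τ, (ratJ_self (nice_of_form 12 E4c)).1⟩

/-- `Δ` as an element of the ring. -/
noncomputable def ratJB (l : ℕ) [NeZero l] : Rl l :=
  ⟨fun τ => CuspForm.discriminant τ, (ratJ_self (nice_of_form 12 CuspForm.discriminant)).1⟩

/-- The constant function. -/
noncomputable def ratJC (l : ℕ) [NeZero l] (c : ℂ) : Rl l :=
  ⟨fun _ => c, mdifferentiable_const, fun _ => rfl, Filter.const_boundedAtFilter _ c⟩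

theorem ratJC_qh (c : ℂ) : qh l (NeZero.pos l) (ratJC l c) = PowerSeries.C c := by
  have h := mem_Rl_of_hasSum (l := l) (NeZero.pos l) (f := fun _ : ℍ => c)
    (c := fun m => if m = 0 then c else 0) mdifferentiable_const (fun τ => by
      have := hasSum_ite_eq (0 : ℕ) c
      convert this using 2 with m
      by_cases hm : m = 0
      · simp [hm]
      · simp [hm])
  show qExpansion l (fun _ : ℍ => c) = _
  rw [h.2]
  ext m
  rw [PowerSeries.coeff_mk, PowerSeries.coeff_C]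

theorem ratJ_qh_inj {f g : Rl l} (h : qh l (NeZero.pos l) f = qh l (NeZero.pos l) g) : f = g := by
  have hl : (0 : ℝ) < l := by exact_mod_cast NeZero.pos l
  apply Subtype.ext
  funext τ
  have h1 := UpperHalfPlane.hasSum_qExpansion hl f.2.2.1 f.2.1 f.2.2.2 τ
  have h2 := UpperHalfPlane.hasSum_qExpansion hl g.2.2.1 g.2.1 g.2.2.2 τ
  have h3 : qExpansion l f.1 = qExpansion l g.1 := h
  rw [h3] at h1
  exact h1.unique h2

theorem ratJA_qh : qh l (NeZero.pos l) (ratJA l) ∈ ratJQ := by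
  rw [ratJ_mem]
  intro n
  show ∃ c : ℚ, (qExpansion l (fun τ => E4c τ)).coeff n = c
  rw [(ratJ_self (l := l) (nice_of_form 12 E4c)).2, PowerSeries.coeff_mk]
  split_ifs
  · exact ratJ_of_Zq E4c_mem _
  · exact ⟨0, by simp⟩

theorem ratJB_qh : qh l (NeZero.pos l) (ratJB l) ∈ ratJQ := by
  rw [ratJ_mem]
  intro n
  show ∃ c : ℚ, (qExpansion l (fun τ => CuspForm.discriminant τ)).coeff n = c
  rw [(ratJ_self (l := l) (nice_of_form 12 CuspForm.discriminant)).2, PowerSeries.coeff_mk]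
  split_ifs
  · exact ratJ_of_Zq Δq_mem _
  · exact ⟨0, by simp⟩

theorem ratJA'_qh : qh l (NeZero.pos l) (Ao l none) ∈ ratJQ := by
  rw [ratJ_mem]
  intro n
  show ∃ c : ℚ, (qExpansion l (fun τ => E4c (pt l none τ))).coeff n = c
  rw [(pt_none_mem (l := l) (nice_of_form 12 E4c)).2, expand2, PowerSeries.coeff_mk]
  split_ifs
  · exact ratJ_of_Zq E4c_mem _
  · exact ⟨0, by simp⟩

theorem ratJB'_qh : qh l (NeZero.pos l) (Do l none) ∈ ratJQ := by
  rw [ratJ_mem]
  intro n
  show ∃ c : ℚ, (qExpansion l (fun τ => CuspForm.discriminant (pt l none τ))).coeff n = c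
  rw [(pt_none_mem (l := l) (nice_of_form 12 CuspForm.discriminant)).2, expand2,
    PowerSeries.coeff_mk]
  split_ifs
  · exact ratJ_of_Zq Δq_mem _
  · exact ⟨0, by simp⟩

theorem ratJ_pt (τ : ℍ) : tpt (l, 0, 1) τ = pt l none τ := by
  unfold tpt
  have h : (((l : ℕ) : ℂ) * τ + ((0 : ℕ) : ℂ)) / ((1 : ℕ) : ℂ) = ((pt l none τ : ℍ) : ℂ) := by
    rw [coe_pt_none]
    simp
  show ofComplex ((((l : ℕ) : ℂ) * τ + ((0 : ℕ) : ℂ)) / ((1 : ℕ) : ℂ)) = _
  rw [h, ofComplex_apply]

end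

/-- The functions `E₄(τ)^(3m) Δ(τ)^(D-m) E₄(Nτ)^(3i) Δ(Nτ)^(s-i)` are convergent power series in
`q` with rational coefficients, which determine them. -/
theorem rat_comb_jInv {N : ℕ} (hN : 1 ≤ N) (D s : ℕ) (c : Fin (D + 1) × Fin s → ℂ)
    (h : ∀ τ : ℍ, ∑ p, c p * jInv τ ^ (p.1 : ℕ) * jInv (tpt (N, 0, 1) τ) ^ (p.2 : ℕ) =
      jInv (tpt (N, 0, 1) τ) ^ s) :
    ∃ c' : Fin (D + 1) × Fin s → ℚ, ∀ τ : ℍ,
      ∑ p, ((c' p : ℚ) : ℂ) * jInv τ ^ (p.1 : ℕ) * jInv (tpt (N, 0, 1) τ) ^ (p.2 : ℕ) =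
        jInv (tpt (N, 0, 1) τ) ^ s := by
  have : NeZero N := ⟨by omega⟩
  -- the functions
  let F : Fin (D + 1) × Fin s → Rl N := fun p =>
    ratJA N ^ (p.1 : ℕ) * ratJB N ^ (D - p.1) * (Ao N none ^ (p.2 : ℕ) * Do N none ^ (s - p.2))
  let G : Rl N := ratJB N ^ D * Ao N none ^ s
  have key : ∀ (τ : ℍ) (c : Fin (D + 1) × Fin s → ℂ),
      (ev N τ (∑ p, ratJC N (c p) * F p) = ev N τ G ↔
      ∑ p, c p * jInv τ ^ (p.1 : ℕ) * jInv (tpt (N, 0, 1) τ) ^ (p.2 : ℕ) =
        jInv (tpt (N, 0, 1) τ) ^ s) := by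
    intro τ c
    have hd := discriminant_ne_zero τ
    have hd' := discriminant_ne_zero (tpt (N, 0, 1) τ)
    have eA : ev N τ (ratJA N) = jInv τ * discriminant τ := by
      show E4c τ = _
      rw [E4c_apply, jInv, div_mul_cancel₀ _ hd]
    have eB : ev N τ (ratJB N) = discriminant τ := rfl
    have eA' : ev N τ (Ao N none) = jInv (tpt (N, 0, 1) τ) * discriminant (tpt (N, 0, 1) τ) := by
      rw [Ao_apply, E4c_apply, jInv, div_mul_cancel₀ _ hd', ratJ_pt]
    have eB' : ev N τ (Do N none) = discriminant (tpt (N, 0, 1) τ) := by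
      rw [Do_apply, ratJ_pt]
      rfl
    have eC : ∀ x : ℂ, ev N τ (ratJC N x) = x := fun _ => rfl
    have e1 : ev N τ (∑ p, ratJC N (c p) * F p) = (discriminant τ ^ D *
        discriminant (tpt (N, 0, 1) τ) ^ s) *
        ∑ p, c p * jInv τ ^ (p.1 : ℕ) * jInv (tpt (N, 0, 1) τ) ^ (p.2 : ℕ) := by
      rw [map_sum, Finset.mul_sum]
      refine Finset.sum_congr rfl fun p _ => ?_
      simp only [F, map_mul, map_pow, eA, eB, eA', eB', eC]
      have h1 : discriminant τ ^ D = discriminant τ ^ (p.1 : ℕ) * discriminant τ ^ (D - p.1) := by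
        rw [← pow_add]
        congr 1
        have := p.1.2
        omega
      have h2 : discriminant (tpt (N, 0, 1) τ) ^ s = discriminant (tpt (N, 0, 1) τ) ^ (p.2 : ℕ) *
          discriminant (tpt (N, 0, 1) τ) ^ (s - p.2) := by
        rw [← pow_add]
        congr 1
        have := p.2.2
        omega
      rw [h1, h2]
      ring
    have e2 : ev N τ G = (discriminant τ ^ D * discriminant (tpt (N, 0, 1) τ) ^ s) *
        jInv (tpt (N, 0, 1) τ) ^ s := by
      simp only [G, map_mul, map_pow, eB, eA']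
      ring
    rw [e1, e2]
    constructor
    · intro h
      exact mul_left_cancel₀ (mul_ne_zero (pow_ne_zero _ hd) (pow_ne_zero _ hd')) h
    · intro h
      rw [h]
  have h1 : ∑ p, ratJC N (c p) * F p = G := by
    apply Subtype.ext
    funext τ
    exact (key τ c).2 (h τ)
  have h2 := congrArg (qh N (NeZero.pos N)) h1
  simp only [map_sum, map_mul, ratJC_qh] at h2
  have hF : ∀ p, qh N (NeZero.pos N) (F p) ∈ ratJQ := by
    intro p
    simp only [F, map_mul, map_pow]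
    exact mul_mem (mul_mem (pow_mem ratJA_qh _) (pow_mem ratJB_qh _))
      (mul_mem (pow_mem ratJA'_qh _) (pow_mem ratJB'_qh _))
  have hG : qh N (NeZero.pos N) G ∈ ratJQ := by
    simp only [G, map_mul, map_pow]
    exact mul_mem (pow_mem ratJB_qh _) (pow_mem ratJA'_qh _)
  obtain ⟨c', hc'⟩ := rat_comb (fun p => qh N (NeZero.pos N) (F p)) (qh N (NeZero.pos N) G)
    (fun p => ratJ_mem.1 (hF p)) (ratJ_mem.1 hG) c h2
  refine ⟨c', fun τ => (key τ fun p => ((c' p : ℚ) : ℂ)).1 ?_⟩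
  have h3 : ∑ p, ratJC N ((c' p : ℚ) : ℂ) * F p = G := by
    apply ratJ_qh_inj
    simp only [map_sum, map_mul, ratJC_qh]
    exact hc'
  rw [h3]

end Pool.Agent.Lib.MP_a325a5_ag.MU
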