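import Pool.Agent.Lib.MP_a325a5_ag.MU.AN.Uniq
import Pool.Agent.Lib.MP_a325a5_ag.MU.AN.RatJ
import Pool.Agent.Lib.MP_a325a5_ag.MU.AN.CPoly

/-! Existence of the modular polynomial with rational coefficients. -/

set_option autoImplicit false

namespace Pool.Agent.Lib.MP_a325a5_ag.MU

open Polynomial UpperHalfPlane

private theorem Exist_eval (Q : ℂ[X][X]) (hQ : Q.Monic) (D : ℕ)
    (hD : ∀ i, (Q.coeff i).natDegree < D + 1) (x y : ℂ) :
    (Q.map (evalRingHom x)).eval y = y ^ Q.natDegree +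
      ∑ p : Fin (D + 1) × Fin Q.natDegree,
        (Q.coeff p.2).coeff p.1 * x ^ (p.1 : ℕ) * y ^ (p.2 : ℕ) := by
  have h1 : (Q.map (evalRingHom x)).eval y =
      ∑ i ∈ Finset.range (Q.natDegree + 1), (Q.coeff i).eval x * y ^ i := by
    rw [eval_map, eval₂_eq_sum_range]
    rfl
  rw [h1, Finset.sum_range_succ, hQ.coeff_natDegree, eval_one, one_mul, add_comm]
  congr 1
  rw [Fintype.sum_prod_type, Finset.sum_comm, Finset.sum_range]
  refine Finset.sum_congr rfl fun i _ => ?_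
  rw [eval_eq_sum_range' (hD i), Finset.sum_mul, Finset.sum_range]

private theorem Exist_rat (D s : ℕ) (c : Fin (D + 1) × Fin s → ℚ) :
    ∃ P : ℚ[X][X], P.Monic ∧ P.natDegree = s ∧ ∀ x y : ℂ,
      (P.map (eval₂RingHom (Rat.castHom ℂ) x)).eval y = y ^ s -
        ∑ p, ((c p : ℚ) : ℂ) * x ^ (p.1 : ℕ) * y ^ (p.2 : ℕ) := by
  have hdeg : degree (∑ p : Fin (D + 1) × Fin s, C (C (c p) * (X : ℚ[X]) ^ (p.1 : ℕ)) *
      (X : ℚ[X][X]) ^ (p.2 : ℕ)) < (s : WithBot ℕ) := by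
    refine (degree_sum_le _ _).trans_lt ?_
    refine (Finset.sup_lt_iff (WithBot.bot_lt_coe s)).2 fun p _ => ?_
    exact (degree_C_mul_X_pow_le _ _).trans_lt (WithBot.coe_lt_coe.2 p.2.2)
  refine ⟨X ^ s - ∑ p : Fin (D + 1) × Fin s, C (C (c p) * (X : ℚ[X]) ^ (p.1 : ℕ)) *
      (X : ℚ[X][X]) ^ (p.2 : ℕ), monic_X_pow_sub hdeg, ?_, fun x y => ?_⟩
  · refine natDegree_eq_of_degree_eq_some ?_
    rw [degree_sub_eq_left_of_degree_lt (by rw [degree_X_pow]; exact hdeg), degree_X_pow]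
  · rw [Polynomial.map_sub, eval_sub, Polynomial.map_pow, map_X, eval_pow, eval_X,
      Polynomial.map_sum, eval_finsetSum]
    congr 1
    refine Finset.sum_congr rfl fun p _ => ?_
    simp

theorem exists_modPoly {N : ℕ} (hN : 1 ≤ N) : ∃ Φ, IsModPoly N Φ := by
  obtain ⟨Q, hQ⟩ := exists_cpoly hN
  obtain ⟨hm, hs⟩ := cpoly_monic hN Q hQ
  have ht : (N, 0, 1) ∈ triples N := by
    simp [triples]
    omega
  have h0 : ∀ τ : ℍ, (Q.map (evalRingHom (jInv τ))).eval (jInv (tpt (N, 0, 1) τ)) = 0 := by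
    intro τ
    rw [hQ τ, eval_prod]
    refine Finset.prod_eq_zero ht ?_
    rw [eval_sub, eval_X, eval_C, sub_self]
  obtain ⟨D, hD⟩ : ∃ D, ∀ i, (Q.coeff i).natDegree < D + 1 := by
    refine ⟨(Finset.range (Q.natDegree + 1)).sup fun i => (Q.coeff i).natDegree, fun i => ?_⟩
    by_cases hi : i ≤ Q.natDegree
    · exact Nat.lt_succ_of_le (Finset.le_sup (f := fun i => (Q.coeff i).natDegree)
        (Finset.mem_range.2 (Nat.lt_succ_of_le hi)))
    · rw [coeff_eq_zero_of_natDegree_lt (not_le.1 hi), natDegree_zero]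
      exact Nat.succ_pos _
  obtain ⟨c', hc'⟩ := rat_comb_jInv hN D Q.natDegree (fun p => -(Q.coeff p.2).coeff p.1)
    (fun τ => by
      have h1 := Exist_eval Q hm D hD (jInv τ) (jInv (tpt (N, 0, 1) τ))
      rw [h0 τ] at h1
      have h2 := eq_neg_of_add_eq_zero_left h1.symm
      rw [h2, ← Finset.sum_neg_distrib]
      exact Finset.sum_congr rfl fun p _ => by ring)
  obtain ⟨P, hPm, hPd, hP⟩ := Exist_rat D Q.natDegree c'
  have hcomp : ∀ x : ℂ, (evalRingHom x).comp (mapRingHom (Rat.castHom ℂ)) =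
      eval₂RingHom (Rat.castHom ℂ) x := by
    intro x
    refine RingHom.ext fun p => ?_
    simp [eval_map]
  have hmap : ∀ x : ℂ, (P.map (mapRingHom (Rat.castHom ℂ))).map (evalRingHom x) =
      P.map (eval₂RingHom (Rat.castHom ℂ) x) := by
    intro x
    rw [Polynomial.map_map, hcomp]
  have hPQ : P.map (mapRingHom (Rat.castHom ℂ)) = Q := by
    refine cpoly_unique hN _ Q (hPm.map _) ?_ (fun τ => ?_) hQ
    · rw [hPm.natDegree_map, hPd, hs]
    · rw [hmap, hP, hc' τ, sub_self]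
  exact ⟨P, fun τ => by rw [← hmap, hPQ, hQ τ]⟩

theorem isModPoly_modPoly {N : ℕ} (hN : 1 ≤ N) : IsModPoly N (modPoly N) := by
  have h := exists_modPoly hN
  unfold modPoly
  rw [dif_pos h]
  exact h.choose_spec

end Pool.Agent.Lib.MP_a325a5_ag.MU
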