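import Mathlib

/-! Two lattices with the same `G₄` and the same `G₆` are equal. -/

set_option autoImplicit false

namespace Pool.Agent.Lib.MP_a325a5_ag.MU

open Filter Topology PeriodPair

/-- Local uniqueness of the regular part of a solution of `y' ^ 2 = 4 y ^ 3 - g₂ y - g₃` with a
double pole. -/
theorem latt_local {g2 g3 : ℂ} {a b : ℂ → ℂ} (ha : AnalyticAt ℂ a 0) (hb : AnalyticAt ℂ b 0)
    (hA : ∀ᶠ z in 𝓝[≠] (0 : ℂ), (z ^ 3 * deriv a z - 2) ^ 2 =
      4 * (1 + z ^ 2 * a z) ^ 3 - g2 * z ^ 4 * (1 + z ^ 2 * a z) - g3 * z ^ 6)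
    (hB : ∀ᶠ z in 𝓝[≠] (0 : ℂ), (z ^ 3 * deriv b z - 2) ^ 2 =
      4 * (1 + z ^ 2 * b z) ^ 3 - g2 * z ^ 4 * (1 + z ^ 2 * b z) - g3 * z ^ 6) :
    ∀ᶠ z in 𝓝 (0 : ℂ), a z = b z := by
  have hd : AnalyticAt ℂ (fun z => a z - b z) 0 := ha.sub hb
  by_contra hne
  have hord : analyticOrderAt (fun z => a z - b z) 0 ≠ ⊤ := by
    intro h
    rw [analyticOrderAt_eq_top] at h
    exact hne (h.mono fun z hz => sub_eq_zero.1 hz)
  obtain ⟨e, he, he0, heq⟩ := hd.analyticOrderAt_ne_top.1 hord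
  set n := analyticOrderNatAt (fun z => a z - b z) 0 with hn
  have heq' : (fun z => a z - b z) =ᶠ[𝓝 0] fun z => z ^ n * e z := by
    filter_upwards [heq] with z hz
    rw [hz, sub_zero, smul_eq_mul]
  -- the derivatives
  have hdA : ∀ᶠ z in 𝓝 (0 : ℂ), DifferentiableAt ℂ a z :=
    ha.eventually_analyticAt.mono fun z hz => hz.differentiableAt
  have hdB : ∀ᶠ z in 𝓝 (0 : ℂ), DifferentiableAt ℂ b z :=
    hb.eventually_analyticAt.mono fun z hz => hz.differentiableAt
  have hdE : ∀ᶠ z in 𝓝 (0 : ℂ), DifferentiableAt ℂ e z :=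
    he.eventually_analyticAt.mono fun z hz => hz.differentiableAt
  have hder : ∀ᶠ z in 𝓝 (0 : ℂ), z * (deriv a z - deriv b z) =
      z ^ n * (n * e z + z * deriv e z) := by
    filter_upwards [heq'.deriv, hdA, hdB, hdE] with z h1 h2 h3 h4
    rw [deriv_fun_sub h2 h3, deriv_fun_mul (by fun_prop) h4, deriv_pow_field] at h1
    rw [h1]
    rcases n with _ | m
    · simp
    · push_cast
      ring
  -- the function `H`
  set H : ℂ → ℂ := fun z => z ^ 3 * (deriv a z + deriv b z) * (n * e z + z * deriv e z) -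
    4 * (n * e z + z * deriv e z) - 12 * e z - 12 * z ^ 2 * (a z + b z) * e z -
    4 * z ^ 4 * (a z ^ 2 + a z * b z + b z ^ 2) * e z + g2 * z ^ 4 * e z with hH
  have hcont : ContinuousAt H 0 := by
    have h1 : ContinuousAt (deriv a) 0 := ha.deriv.continuousAt
    have h2 : ContinuousAt (deriv b) 0 := hb.deriv.continuousAt
    have h3 : ContinuousAt (deriv e) 0 := he.deriv.continuousAt
    have h4 := ha.continuousAt
    have h5 := hb.continuousAt
    have h6 := he.continuousAt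
    rw [hH]
    fun_prop
  have hzero : ∀ᶠ z in 𝓝[≠] (0 : ℂ), H z = 0 := by
    filter_upwards [hA, hB, heq'.filter_mono nhdsWithin_le_nhds,
      hder.filter_mono nhdsWithin_le_nhds, self_mem_nhdsWithin] with z h1 h2 h3 h4 hz
    have hz0 : z ≠ 0 := hz
    have h5 : z ^ (n + 2) * H z = 0 := by
      have h6 : a z = b z + z ^ n * e z := by linear_combination h3
      rw [hH]
      have h7 : z ^ (n + 2) * (z ^ 3 * (deriv a z + deriv b z) * (n * e z + z * deriv e z) -
          4 * (n * e z + z * deriv e z) - 12 * e z - 12 * z ^ 2 * (a z + b z) * e z -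
          4 * z ^ 4 * (a z ^ 2 + a z * b z + b z ^ 2) * e z + g2 * z ^ 4 * e z) =
          z ^ 5 * (deriv a z + deriv b z) * (z ^ n * (n * e z + z * deriv e z)) -
          4 * z ^ 2 * (z ^ n * (n * e z + z * deriv e z)) -
          z ^ 2 * (z ^ n * e z) * (12 + 12 * z ^ 2 * (a z + b z) +
            4 * z ^ 4 * (a z ^ 2 + a z * b z + b z ^ 2) - g2 * z ^ 4) := by ring
      show z ^ (n + 2) * (z ^ 3 * (deriv a z + deriv b z) * (n * e z + z * deriv e z) -
          4 * (n * e z + z * deriv e z) - 12 * e z - 12 * z ^ 2 * (a z + b z) * e z -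
          4 * z ^ 4 * (a z ^ 2 + a z * b z + b z ^ 2) * e z + g2 * z ^ 4 * e z) = 0
      rw [h7, ← h4]
      have h8 : z ^ n * e z = a z - b z := by linear_combination -h3
      rw [h8]
      linear_combination h1 - h2
    rcases mul_eq_zero.1 h5 with h6 | h6
    · exact absurd h6 (pow_ne_zero _ hz0)
    · exact h6
  have hH0 : H 0 = 0 := by
    have h1 : Tendsto H (𝓝[≠] 0) (𝓝 (H 0)) := hcont.tendsto.mono_left nhdsWithin_le_nhds
    have h2 : Tendsto H (𝓝[≠] 0) (𝓝 0) :=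
      tendsto_const_nhds.congr' (hzero.mono fun z hz => hz.symm)
    exact tendsto_nhds_unique h1 h2
  rw [hH] at hH0
  have h9 : (4 * (n : ℂ) + 12) * e 0 = 0 := by
    simp only [] at hH0
    linear_combination -hH0
  rcases mul_eq_zero.1 h9 with h | h
  · have : (4 * n + 12 : ℕ) = 0 := by exact_mod_cast h
    omega
  · exact he0 h

/-- The differential equation for the regular part of `℘`. -/
theorem latt_ode (L : PeriodPair) : ∀ᶠ z in 𝓝[≠] (0 : ℂ),
    (z ^ 3 * deriv ℘[L - (0 : ℂ)] z - 2) ^ 2 = 4 * (1 + z ^ 2 * ℘[L - (0 : ℂ)] z) ^ 3 -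
      L.g₂ * z ^ 4 * (1 + z ^ 2 * ℘[L - (0 : ℂ)] z) - L.g₃ * z ^ 6 := by
  have h0 : (0 : ℂ) ∈ L.lattice := zero_mem _
  filter_upwards [self_mem_nhdsWithin, mem_nhdsWithin_of_mem_nhds
    (L.compl_lattice_sdiff_singleton_mem_nhds 0)] with z hz hz'
  have hz0 : z ≠ 0 := hz
  have hzl : z ∉ L.lattice := fun h => hz' ⟨h, hz0⟩
  have h1 := L.derivWeierstrassP_sq z hzl
  have h2 := L.weierstrassPExcept_def ⟨0, h0⟩ z
  have h3 := L.derivWeierstrassPExcept_def ⟨0, h0⟩ z
  have h4 : deriv ℘[L - (0 : ℂ)] z = ℘'[L - (0 : ℂ)] z :=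
    L.eqOn_deriv_weierstrassPExcept_derivWeierstrassPExcept 0 hz'
  simp only [] at h2 h3
  rw [h4, h3, h2]
  have h5 : z ^ 3 * (℘'[L] z + 2 / (z - 0) ^ 3) - 2 = z ^ 3 * ℘'[L] z := by
    rw [sub_zero]
    field_simp
    ring
  have h6 : 1 + z ^ 2 * (℘[L] z + (1 / (0 : ℂ) ^ 2 - 1 / (z - 0) ^ 2)) = z ^ 2 * ℘[L] z := by
    rw [sub_zero]
    field_simp
    ring
  rw [h5, h6]
  linear_combination z ^ 6 * h1

theorem latt_countable (L : PeriodPair) : (L.lattice : Set ℂ).Countable := by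
  have : Countable L.lattice := L.latticeEquivProd.toEquiv.countable_iff.2 inferInstance
  exact Set.countable_coe_iff.1 this

/-- `℘` near `0`. -/
theorem latt_near (L : PeriodPair) (z : ℂ) : ℘[L] z = ℘[L - (0 : ℂ)] z + 1 / z ^ 2 := by
  have h2 := L.weierstrassPExcept_def ⟨0, zero_mem _⟩ z
  simp only [] at h2
  rw [h2]
  simp

theorem latt_le (L L' : PeriodPair) (h2 : L.g₂ = L'.g₂) (h3 : L.g₃ = L'.g₃) :
    L.lattice ≤ L'.lattice := by
  have hloc : ∀ᶠ z in 𝓝 (0 : ℂ), ℘[L - (0 : ℂ)] z = ℘[L' - (0 : ℂ)] z := by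
    refine latt_local (L.analyticAt_weierstrassPExcept 0) (L'.analyticAt_weierstrassPExcept 0)
      (latt_ode L) ?_
    rw [h2, h3]
    exact latt_ode L'
  set U : Set ℂ := ((L.lattice : Set ℂ) ∪ L'.lattice)ᶜ with hU
  have hcount : ((L.lattice : Set ℂ) ∪ L'.lattice).Countable :=
    (latt_countable L).union (latt_countable L')
  have hopen : IsOpen U := (L.isClosed_lattice.union L'.isClosed_lattice).isOpen_compl
  have hconn : IsPreconnected U := by
    refine (Set.Countable.isConnected_compl_of_one_lt_rank ?_ hcount).isPreconnected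
    rw [Complex.rank_real_complex]
    norm_num
  have hdense : Dense U := Set.Countable.dense_compl ℝ hcount
  have hA : AnalyticOnNhd ℂ ℘[L] U := L.analyticOnNhd_weierstrassP.mono
    (Set.compl_subset_compl.2 Set.subset_union_left)
  have hB : AnalyticOnNhd ℂ ℘[L'] U := L'.analyticOnNhd_weierstrassP.mono
    (Set.compl_subset_compl.2 Set.subset_union_right)
  obtain ⟨V, hV, hVo, h0V⟩ := eventually_nhds_iff.1 hloc
  obtain ⟨z0, hz0, hz0V⟩ := hdense.inter_open_nonempty V hVo ⟨0, h0V⟩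
  have hEq : Set.EqOn ℘[L] ℘[L'] U := by
    refine hA.eqOn_of_preconnected_of_eventuallyEq hB hconn hz0V ?_
    filter_upwards [hVo.mem_nhds hz0] with z hz
    rw [latt_near L z, latt_near L' z, hV z hz]
  intro l hl
  by_contra hl'
  have h4 : meromorphicOrderAt ℘[L] l = -2 := L.order_weierstrassP l hl
  have h5 : AnalyticAt ℂ ℘[L'] l := L'.analyticOnNhd_weierstrassP l hl'
  have h6 : 0 ≤ meromorphicOrderAt ℘[L'] l := h5.meromorphicOrderAt_nonneg
  have h7 : ℘[L] =ᶠ[𝓝[≠] l] ℘[L'] := by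
    filter_upwards [self_mem_nhdsWithin, mem_nhdsWithin_of_mem_nhds
      (L.compl_lattice_sdiff_singleton_mem_nhds l), mem_nhdsWithin_of_mem_nhds
      (L'.isClosed_lattice.isOpen_compl.mem_nhds hl')] with z hz hz' hz''
    refine hEq ?_
    rw [hU, Set.mem_compl_iff, Set.mem_union, not_or]
    exact ⟨fun h => hz' ⟨h, hz⟩, hz''⟩
  rw [← meromorphicOrderAt_congr h7, h4] at h6
  exact absurd h6 (by decide)

/-- Two lattices with the same `G₄` and the same `G₆` are equal. -/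
theorem latt_eq (L L' : PeriodPair) (h4 : L.G 4 = L'.G 4) (h6 : L.G 6 = L'.G 6) :
    L.lattice = L'.lattice := by
  have h2 : L.g₂ = L'.g₂ := by rw [g₂, g₂, h4]
  have h3 : L.g₃ = L'.g₃ := by rw [g₃, g₃, h6]
  exact le_antisymm (latt_le L L' h2 h3) (latt_le L' L h2.symm h3.symm)

end Pool.Agent.Lib.MP_a325a5_ag.MU
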