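import Pool.Agent.Lib.MP_a325a5_ag.MU.Mod
import Pool.Agent.Lib.MP_a325a5_ag.MU.AN.Latt

/-! The `j`-invariant separates the orbits of `SL(2, ℤ)`. -/

set_option autoImplicit false

namespace Pool.Agent.Lib.MP_a325a5_ag.MU

open UpperHalfPlane ModularForm EisensteinSeries MatrixGroups

/-- The lattice `c (ℤ τ + ℤ)`. -/
noncomputable def perPair (c : ℂ) (hc : c ≠ 0) (τ : ℍ) : PeriodPair where
  ω₁ := c * τ
  ω₂ := c
  indep := by
    rw [LinearIndependent.pair_iff]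
    intro x y h
    have h1 : c * ((x : ℂ) * τ + y) = 0 := by
      have h2 : (x : ℂ) * (c * τ) + y * c = 0 := by simpa using h
      linear_combination h2
    have h2 : (x : ℂ) * τ + y = 0 := (mul_eq_zero.1 h1).resolve_left hc
    have h3 := congrArg Complex.im h2
    simp only [Complex.add_im, Complex.mul_im, Complex.ofReal_re, Complex.ofReal_im, zero_mul,
      add_zero, Complex.zero_im] at h3
    have hx : x = 0 := (mul_eq_zero.1 h3).resolve_right τ.im_ne_zero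
    have h4 := congrArg Complex.re h2
    simp only [hx, Complex.ofReal_zero, zero_mul, zero_add, Complex.ofReal_re,
      Complex.zero_re] at h4
    exact ⟨hx, h4⟩

theorem mem_perPair {c : ℂ} {hc : c ≠ 0} {τ : ℍ} {z : ℂ} :
    z ∈ (perPair c hc τ).lattice ↔ ∃ a b : ℤ, z = c * (a * τ + b) := by
  rw [PeriodPair.mem_lattice]
  constructor
  · rintro ⟨a, b, h⟩
    refine ⟨a, b, ?_⟩
    rw [← h]
    simp only [perPair]
    ring
  · rintro ⟨a, b, h⟩
    refine ⟨a, b, ?_⟩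
    rw [h]
    simp only [perPair]
    ring

/-- The Eisenstein series of the lattice `c (ℤ τ + ℤ)`. -/
theorem perPair_G (c : ℂ) (hc : c ≠ 0) (τ : ℍ) {k : ℕ} (hk : 3 ≤ k) :
    (perPair c hc τ).G k = (c ^ k)⁻¹ * (2 * riemannZeta k * E hk τ) := by
  have hE : E hk τ = (1 / 2 : ℂ) * eisensteinSeries (N := 1) 0 k τ := by
    rw [show E hk τ = (1 / 2 : ℂ) • eisensteinSeriesSIF (N := 1) 0 k τ from rfl,
      eisensteinSeriesSIF_apply 0 k τ, smul_eq_mul]
  have h1 : 2 * riemannZeta k * E hk τ = ∑' v : Fin 2 → ℤ, eisSummand k v τ := by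
    rw [tsum_eisSummand_eq_riemannZeta_mul_eisensteinSeries hk τ, hE]
    ring
  rw [h1, ← (finTwoArrowEquiv ℤ).symm.tsum_eq, PeriodPair.G,
    ← (perPair c hc τ).latticeEquivProd.symm.toEquiv.tsum_eq, ← tsum_mul_left]
  refine tsum_congr fun x => ?_
  have h2 : (((perPair c hc τ).latticeEquivProd.symm.toEquiv x : (perPair c hc τ).lattice) : ℂ) =
      x.1 * (c * τ) + x.2 * c := (perPair c hc τ).latticeEquiv_symm_apply x
  rw [h2, eisSummand]
  simp only [finTwoArrowEquiv_symm_apply, Matrix.cons_val_zero, Matrix.cons_val_one, zpow_neg,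
    zpow_natCast]
  rw [← mul_inv, ← mul_pow]
  congr 2
  ring

theorem int_comb_inj {τ : ℍ} {a b a' b' : ℤ} (h : (a : ℂ) * τ + b = a' * τ + b') :
    a = a' ∧ b = b' := by
  have h3 := congrArg Complex.im h
  simp only [Complex.add_im, Complex.mul_im, Complex.intCast_re, Complex.intCast_im, zero_mul,
    add_zero] at h3
  have h4 : (a : ℝ) = a' := mul_right_cancel₀ τ.im_ne_zero h3
  have ha : a = a' := by exact_mod_cast h4
  subst ha
  have h5 : (b : ℂ) = b' := by linear_combination h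
  exact ⟨rfl, by exact_mod_cast h5⟩

/-- Homothetic lattices give equivalent points. -/
theorem smul_of_perPair {c : ℂ} (hc : c ≠ 0) {τ τ' : ℍ}
    (h : (perPair c hc τ).lattice = (perPair 1 one_ne_zero τ').lattice) :
    ∃ γ : SL(2, ℤ), γ • τ = τ' := by
  have h1 : (τ' : ℂ) ∈ (perPair c hc τ).lattice := by
    rw [h, mem_perPair]
    exact ⟨1, 0, by push_cast; ring⟩
  have h2 : (1 : ℂ) ∈ (perPair c hc τ).lattice := by
    rw [h, mem_perPair]
    exact ⟨0, 1, by push_cast; ring⟩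
  have h3 : c * τ ∈ (perPair 1 one_ne_zero τ').lattice := by
    rw [← h, mem_perPair]
    exact ⟨1, 0, by push_cast; ring⟩
  have h4 : c ∈ (perPair 1 one_ne_zero τ').lattice := by
    rw [← h, mem_perPair]
    exact ⟨0, 1, by push_cast; ring⟩
  rw [mem_perPair] at h1 h2 h3 h4
  obtain ⟨a, b, h1⟩ := h1
  obtain ⟨p, q, h2⟩ := h2
  obtain ⟨m, n, h3⟩ := h3
  obtain ⟨r, s, h4⟩ := h4
  rw [one_mul] at h3 h4
  -- the matrices are inverse to each other
  have e1 : ((m * a + n * p : ℤ) : ℂ) * τ + (m * b + n * q : ℤ) = (1 : ℤ) * τ + (0 : ℤ) := by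
    apply mul_left_cancel₀ hc
    push_cast
    linear_combination (-(m : ℂ)) * h1 - n * h2 - h3
  have e2 : ((r * a + s * p : ℤ) : ℂ) * τ + (r * b + s * q : ℤ) = (0 : ℤ) * τ + (1 : ℤ) := by
    apply mul_left_cancel₀ hc
    push_cast
    linear_combination (-(r : ℂ)) * h1 - s * h2 - h4
  obtain ⟨e1a, e1b⟩ := int_comb_inj e1
  obtain ⟨e2a, e2b⟩ := int_comb_inj e2
  have hdet : (m * s - n * r) * (a * q - b * p) = 1 := by
    have h5 : (m * s - n * r) * (a * q - b * p) =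
        (m * a + n * p) * (r * b + s * q) - (m * b + n * q) * (r * a + s * p) := by ring
    rw [h5, e1a, e2b, e1b]
    ring
  -- the sign
  have hw : (p : ℂ) * τ + q ≠ 0 := by
    intro h0
    rw [h0, mul_zero] at h2
    exact one_ne_zero h2
  have hτ' : (τ' : ℂ) = (a * τ + b) / (p * τ + q) := by
    rw [eq_div_iff hw]
    linear_combination ((p : ℂ) * τ + q) * h1 - (a * τ + b) * h2
  have him : (τ' : ℂ).im = (a * q - b * p : ℤ) * τ.im / Complex.normSq (p * τ + q) := by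
    rw [hτ', Complex.div_im]
    simp only [Complex.add_im, Complex.add_re, Complex.mul_im, Complex.mul_re, Complex.intCast_re,
      Complex.intCast_im, zero_mul, add_zero, sub_zero]
    push_cast
    rw [← sub_div]
    congr 1
    change _ = ((a : ℝ) * q - b * p) * (τ : ℂ).im
    ring
  have hpos : 0 < a * q - b * p := by
    have h5 : 0 < (τ' : ℂ).im := τ'.im_pos
    rw [him] at h5
    have h6 : 0 < Complex.normSq ((p : ℂ) * τ + q) := Complex.normSq_pos.2 hw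
    have h7 : 0 < ((a * q - b * p : ℤ) : ℝ) * τ.im := by
      by_contra h8
      exact absurd h5 (not_lt.2 (div_nonpos_of_nonpos_of_nonneg (not_lt.1 h8) h6.le))
    have h8 : (0 : ℝ) < ((a * q - b * p : ℤ) : ℝ) := (pos_iff_pos_of_mul_pos h7).2 τ.im_pos
    exact_mod_cast h8
  have hdet1 : a * q - b * p = 1 := by
    rcases Int.isUnit_iff.1 (IsUnit.of_mul_eq_one_right _ hdet) with h5 | h5
    · exact h5
    · omega
  obtain ⟨γ, hγ⟩ : ∃ γ : SL(2, ℤ), (γ : Matrix (Fin 2) (Fin 2) ℤ) = !![a, b; p, q] :=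
    ⟨⟨!![a, b; p, q], by rw [Matrix.det_fin_two_of]; exact hdet1⟩, rfl⟩
  refine ⟨γ, ?_⟩
  apply UpperHalfPlane.ext
  rw [UpperHalfPlane.coe_specialLinearGroup_apply, hτ']
  simp [hγ]

/-- **The `j`-invariant separates the orbits of `SL(2, ℤ)`.** -/
theorem jInv_inj (τ τ' : ℍ) (h : jInv τ = jInv τ') : ∃ γ : SL(2, ℤ), γ • τ = τ' := by
  have hΔ : discriminant τ ≠ 0 := discriminant_ne_zero τ
  have hΔ' : discriminant τ' ≠ 0 := discriminant_ne_zero τ'
  have hD := discriminant_eq_E₄_cube_sub_E₆_sq τ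
  have hD' := discriminant_eq_E₄_cube_sub_E₆_sq τ'
  obtain ⟨α, hα⟩ := IsAlgClosed.exists_pow_nat_eq (discriminant τ' / discriminant τ)
    (by norm_num : 0 < 12)
  have hα0 : α ≠ 0 := by
    rintro rfl
    rw [zero_pow (by norm_num)] at hα
    exact div_ne_zero hΔ' hΔ hα.symm
  have h12 : α ^ 12 * discriminant τ = discriminant τ' := by
    rw [hα, div_mul_cancel₀ _ hΔ]
  have h4 : (α ^ 4 * E₄ τ) ^ 3 = E₄ τ' ^ 3 := by
    rw [jInv, jInv, div_eq_div_iff hΔ hΔ'] at h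
    apply mul_right_cancel₀ hΔ
    rw [← h12] at h
    linear_combination h
  have h6 : (α ^ 6 * E₆ τ) ^ 2 = E₆ τ' ^ 2 := by
    have h5 : α ^ 12 * ((E₄ τ ^ 3 - E₆ τ ^ 2) / 1728) = (E₄ τ' ^ 3 - E₆ τ' ^ 2) / 1728 := by
      rw [← hD, ← hD']
      exact h12
    linear_combination h4 - 1728 * h5
  -- a cube root of unity
  obtain ⟨w, hw3, hw⟩ : ∃ w : ℂ, w ^ 3 = 1 ∧ α ^ 4 * E₄ τ = w * E₄ τ' := by
    by_cases h0 : E₄ τ' = 0
    · refine ⟨1, one_pow 3, ?_⟩
      rw [h0, zero_pow (by norm_num)] at h4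
      rw [h0, mul_zero]
      exact pow_eq_zero_iff (by norm_num) |>.1 h4
    · refine ⟨α ^ 4 * E₄ τ / E₄ τ', ?_, ?_⟩
      · rw [div_pow, h4, div_self (pow_ne_zero _ h0)]
      · rw [div_mul_cancel₀ _ h0]
  -- a fourth root of unity
  obtain ⟨v, hv4, hv⟩ : ∃ v : ℂ, v ^ 4 = 1 ∧ α ^ 6 * E₆ τ = v ^ 2 * E₆ τ' := by
    rcases sq_eq_sq_iff_eq_or_eq_neg.1 h6 with h7 | h7
    · exact ⟨1, one_pow 4, by rw [h7]; ring⟩
    · exact ⟨Complex.I, Complex.I_pow_four, by rw [h7, Complex.I_sq]; ring⟩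
  have hw0 : w ≠ 0 := by
    rintro rfl
    norm_num at hw3
  have hv0 : v ≠ 0 := by
    rintro rfl
    norm_num at hv4
  set β : ℂ := α * w ^ 2 * v with hβ
  have hβ0 : β ≠ 0 := mul_ne_zero (mul_ne_zero hα0 (pow_ne_zero _ hw0)) hv0
  have hβ4 : β ^ 4 * E₄ τ = E₄ τ' := by
    have : β ^ 4 * E₄ τ = w ^ 8 * v ^ 4 * (α ^ 4 * E₄ τ) := by rw [hβ]; ring
    rw [this, hw, hv4]
    have : w ^ 8 * 1 * (w * E₄ τ') = (w ^ 3) ^ 3 * E₄ τ' := by ring
    rw [this, hw3]
    ring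
  have hβ6 : β ^ 6 * E₆ τ = E₆ τ' := by
    have : β ^ 6 * E₆ τ = (w ^ 3) ^ 4 * v ^ 6 * (α ^ 6 * E₆ τ) := by rw [hβ]; ring
    rw [this, hv, hw3]
    have : (1 : ℂ) ^ 4 * v ^ 6 * (v ^ 2 * E₆ τ') = (v ^ 4) ^ 2 * E₆ τ' := by ring
    rw [this, hv4]
    ring
  have hc0 : β⁻¹ ≠ 0 := inv_ne_zero hβ0
  refine smul_of_perPair hc0 (latt_eq _ _ ?_ ?_)
  · rw [perPair_G _ _ _ (by norm_num : 3 ≤ 4), perPair_G _ _ _ (by norm_num : 3 ≤ 4),
      inv_pow, inv_inv, one_pow, inv_one, one_mul, ← hβ4]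
    ring
  · rw [perPair_G _ _ _ (by norm_num : 3 ≤ 6), perPair_G _ _ _ (by norm_num : 3 ≤ 6),
      inv_pow, inv_inv, one_pow, inv_one, one_mul, ← hβ6]
    ring

end Pool.Agent.Lib.MP_a325a5_ag.MU
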