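import Pool.Agent.Lib.MP_a325a5_ag.MU.AN.Defs

/-! Integral matrices of given determinant and the triples (helper92, helper62). -/

set_option autoImplicit false

namespace Pool.Agent.Lib.MP_a325a5_ag.MU

open Matrix MatrixGroups

theorem prim_iff {g : Matrix (Fin 2) (Fin 2) ℤ} :
    Prim g ↔ ∀ p : ℤ, (∀ i j, p ∣ g i j) → IsUnit p := by
  constructor
  · intro h p hp
    exact h p (hp 0 0) (hp 0 1) (hp 1 0) (hp 1 1)
  · intro h p h1 h2 h3 h4
    apply h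
    intro i j
    fin_cases i <;> fin_cases j
    · exact h1
    · exact h2
    · exact h3
    · exact h4

theorem mem_triples {N : ℕ} {t : ℕ × ℕ × ℕ} (hN : 1 ≤ N) : t ∈ triples N ↔
    t.1 * t.2.2 = N ∧ t.2.1 < t.2.2 ∧ Nat.gcd (Nat.gcd t.1 t.2.1) t.2.2 = 1 := by
  unfold triples
  rw [Finset.mem_filter]
  constructor
  · exact fun h => h.2
  · intro h
    refine ⟨?_, h⟩
    obtain ⟨h1, h2, -⟩ := h
    have hd : 1 ≤ t.2.2 := by omega
    have ha : 1 ≤ t.1 := by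
      rcases Nat.eq_zero_or_pos t.1 with h0 | h0
      · rw [h0, zero_mul] at h1
        omega
      · exact h0
    have h3 : t.1 ≤ N := by
      rw [← h1]
      exact Nat.le_mul_of_pos_right _ hd
    have h4 : t.2.2 ≤ N := by
      rw [← h1]
      exact Nat.le_mul_of_pos_left _ ha
    rw [Finset.mem_product, Finset.mem_product, Finset.mem_range, Finset.mem_range,
      Finset.mem_range]
    omega

theorem sl_inv_mul (γ : SL(2, ℤ)) : ((γ⁻¹ : SL(2, ℤ)) : Matrix (Fin 2) (Fin 2) ℤ) *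
    (γ : Matrix (Fin 2) (Fin 2) ℤ) = 1 :=
  congrArg (fun δ : SL(2, ℤ) => (δ : Matrix (Fin 2) (Fin 2) ℤ)) (inv_mul_cancel γ)

theorem sl_mul_inv (γ : SL(2, ℤ)) : (γ : Matrix (Fin 2) (Fin 2) ℤ) *
    ((γ⁻¹ : SL(2, ℤ)) : Matrix (Fin 2) (Fin 2) ℤ) = 1 :=
  congrArg (fun δ : SL(2, ℤ) => (δ : Matrix (Fin 2) (Fin 2) ℤ)) (mul_inv_cancel γ)

theorem Prim.sl_mul {g : Matrix (Fin 2) (Fin 2) ℤ} (hg : Prim g) (γ : SL(2, ℤ)) :
    Prim (γ.1 * g) := by
  rw [prim_iff] at *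
  intro p hp
  apply hg
  have h1 : g = ((γ⁻¹ : SL(2, ℤ)) : Matrix (Fin 2) (Fin 2) ℤ) *
      ((γ : Matrix (Fin 2) (Fin 2) ℤ) * g) := by
    rw [← mul_assoc, sl_inv_mul, one_mul]
  intro i j
  rw [h1, Matrix.mul_apply]
  exact Finset.dvd_sum fun k _ => Dvd.dvd.mul_left (hp k j) _

theorem Prim.mul_sl {g : Matrix (Fin 2) (Fin 2) ℤ} (hg : Prim g) (γ : SL(2, ℤ)) :
    Prim (g * γ.1) := by
  rw [prim_iff] at *
  intro p hp
  apply hg
  have h1 : g = (g * (γ : Matrix (Fin 2) (Fin 2) ℤ)) *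
      ((γ⁻¹ : SL(2, ℤ)) : Matrix (Fin 2) (Fin 2) ℤ) := by
    rw [mul_assoc, sl_mul_inv, mul_one]
  intro i j
  rw [h1, Matrix.mul_apply]
  exact Finset.dvd_sum fun k _ => Dvd.dvd.mul_right (hp i k) _

theorem prim_tm {N : ℕ} {t : ℕ × ℕ × ℕ} (ht : t ∈ triples N) : Prim (tm t) := by
  intro p h1 h2 _ h3
  have h : Nat.gcd (Nat.gcd t.1 t.2.1) t.2.2 = 1 := by
    unfold triples at ht
    rw [Finset.mem_filter] at ht
    exact ht.2.2.2
  replace h1 : p ∣ (t.1 : ℤ) := h1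
  replace h2 : p ∣ (t.2.1 : ℤ) := h2
  replace h3 : p ∣ (t.2.2 : ℤ) := h3
  rw [← Int.natAbs_dvd_natAbs, Int.natAbs_natCast] at h1 h2 h3
  have h4 := Nat.dvd_gcd (Nat.dvd_gcd h1 h2) h3
  rw [h, Nat.dvd_one] at h4
  exact Int.isUnit_iff_natAbs_eq.2 h4

theorem det_tm {N : ℕ} {t : ℕ × ℕ × ℕ} (ht : t ∈ triples N) : (tm t).det = N := by
  have h : t.1 * t.2.2 = N := by
    unfold triples at ht
    rw [Finset.mem_filter] at ht
    exact ht.2.1
  unfold tm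
  rw [Matrix.det_fin_two_of, mul_zero, sub_zero, ← h]
  push_cast
  ring

/-- Hermite normal form. -/
theorem exists_hermite {N : ℕ} (hN : 1 ≤ N) (g : Matrix (Fin 2) (Fin 2) ℤ) (hdet : g.det = N)
    (hg : Prim g) : ∃ γ : SL(2, ℤ), ∃ t ∈ triples N,
      (γ : Matrix (Fin 2) (Fin 2) ℤ) * g = tm t := by
  have hdet' : g 0 0 * g 1 1 - g 0 1 * g 1 0 = N := by rw [← hdet, Matrix.det_fin_two]
  set c : ℤ := ((Int.gcd (g 0 0) (g 1 0) : ℕ) : ℤ) with hc
  have hc0 : c ≠ 0 := by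
    intro h
    have h1 : Int.gcd (g 0 0) (g 1 0) = 0 := by
      rw [hc] at h
      exact_mod_cast h
    rw [Int.gcd_eq_zero_iff] at h1
    rw [h1.1, h1.2, zero_mul, mul_zero, sub_zero] at hdet'
    have : (1 : ℤ) ≤ N := by exact_mod_cast hN
    omega
  have hcpos : 0 < c := lt_of_le_of_ne (by rw [hc]; exact Int.natCast_nonneg _) hc0.symm
  obtain ⟨x, hx⟩ : c ∣ g 0 0 := Int.gcd_dvd_left _ _
  obtain ⟨y, hy⟩ : c ∣ g 1 0 := Int.gcd_dvd_right _ _
  obtain ⟨u, v, huv⟩ : ∃ u v : ℤ, u * x + v * y = 1 := by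
    have h1 := Int.gcd_eq_gcd_ab (g 0 0) (g 1 0)
    rw [← hc] at h1
    refine ⟨Int.gcdA (g 0 0) (g 1 0), Int.gcdB (g 0 0) (g 1 0), ?_⟩
    apply mul_left_cancel₀ hc0
    linear_combination -h1 + Int.gcdA (g 0 0) (g 1 0) * (-hx) +
      Int.gcdB (g 0 0) (g 1 0) * (-hy)
  set d : ℤ := x * g 1 1 - y * g 0 1 with hd
  have hcd : c * d = N := by
    rw [← hdet', hd, hx, hy]
    ring
  have hdpos : 0 < d := by
    have h1 : (0 : ℤ) < N := by exact_mod_cast hN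
    rw [← hcd] at h1
    exact (mul_pos_iff_of_pos_left hcpos).1 h1
  set e : ℤ := u * g 0 1 + v * g 1 1 with he
  set q : ℤ := e / d with hq
  have hed : e - q * d = e % d := by
    rw [hq, Int.emod_def, mul_comm d]
  have hγ : Matrix.det !![u + q * y, v - q * x; -y, x] = 1 := by
    rw [Matrix.det_fin_two_of]
    linear_combination huv
  have h0 : 0 ≤ e % d := Int.emod_nonneg _ hdpos.ne'
  have hlt : e % d < d := Int.emod_lt_of_pos _ hdpos
  let γ : SL(2, ℤ) := ⟨!![u + q * y, v - q * x; -y, x], hγ⟩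
  have heq : (γ : Matrix (Fin 2) (Fin 2) ℤ) * g = !![c, e % d; 0, d] := by
    change !![u + q * y, v - q * x; -y, x] * g = _
    ext i j
    rw [Matrix.mul_apply, Fin.sum_univ_two]
    fin_cases i <;> fin_cases j
    · change (u + q * y) * g 0 0 + (v - q * x) * g 1 0 = c
      rw [hx, hy]
      linear_combination c * huv
    · change (u + q * y) * g 0 1 + (v - q * x) * g 1 1 = e % d
      rw [← hed, he, hd]
      ring
    · change (-y) * g 0 0 + x * g 1 0 = 0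
      rw [hx, hy]
      ring
    · change (-y) * g 0 1 + x * g 1 1 = d
      rw [hd]
      ring
  have hT : tm (c.toNat, (e % d).toNat, d.toNat) = !![c, e % d; 0, d] := by
    unfold tm
    rw [Int.toNat_of_nonneg hcpos.le, Int.toNat_of_nonneg h0, Int.toNat_of_nonneg hdpos.le]
  refine ⟨γ, (c.toNat, (e % d).toNat, d.toNat), (mem_triples hN).2 ⟨?_, ?_, ?_⟩, ?_⟩
  · zify
    rw [Int.toNat_of_nonneg hcpos.le, Int.toNat_of_nonneg hdpos.le, hcd]
  · zify
    rw [Int.toNat_of_nonneg h0, Int.toNat_of_nonneg hdpos.le]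
    exact hlt
  · have hp := hg.sl_mul γ
    rw [show γ.1 * g = !![c, e % d; 0, d] from heq, ← hT, prim_iff] at hp
    have h1 := hp (((Nat.gcd (Nat.gcd c.toNat (e % d).toNat) d.toNat : ℕ)) : ℤ) (by
      intro i j
      have e1 : Nat.gcd (Nat.gcd c.toNat (e % d).toNat) d.toNat ∣ c.toNat :=
        (Nat.gcd_dvd_left _ _).trans (Nat.gcd_dvd_left _ _)
      have e2 : Nat.gcd (Nat.gcd c.toNat (e % d).toNat) d.toNat ∣ (e % d).toNat :=
        (Nat.gcd_dvd_left _ _).trans (Nat.gcd_dvd_right _ _)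
      have e3 : Nat.gcd (Nat.gcd c.toNat (e % d).toNat) d.toNat ∣ d.toNat :=
        Nat.gcd_dvd_right _ _
      fin_cases i <;> fin_cases j
      · exact Int.natCast_dvd_natCast.2 e1
      · exact Int.natCast_dvd_natCast.2 e2
      · exact dvd_zero _
      · exact Int.natCast_dvd_natCast.2 e3)
    rw [Int.isUnit_iff_natAbs_eq, Int.natAbs_natCast] at h1
    exact h1
  · rw [heq, hT]

/-- Uniqueness in the Hermite normal form. -/
theorem triple_unique' {N : ℕ} (hN : 1 ≤ N) {t t' : ℕ × ℕ × ℕ} (ht : t ∈ triples N)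
    (ht' : t' ∈ triples N) (δ : SL(2, ℤ))
    (h : (δ : Matrix (Fin 2) (Fin 2) ℤ) * tm t = tm t') : t = t' ∧ δ = 1 := by
  obtain ⟨h1, h2, -⟩ := (mem_triples hN).1 ht
  obtain ⟨h1', h2', -⟩ := (mem_triples hN).1 ht'
  have ha : 0 < t.1 := by
    rcases Nat.eq_zero_or_pos t.1 with h0 | h0
    · rw [h0, zero_mul] at h1
      omega
    · exact h0
  have ha' : 0 < t'.1 := by
    rcases Nat.eq_zero_or_pos t'.1 with h0 | h0
    · rw [h0, zero_mul] at h1'
      omega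
    · exact h0
  have e00 := congrFun (congrFun h 0) 0
  have e01 := congrFun (congrFun h 0) 1
  have e10 := congrFun (congrFun h 1) 0
  have e11 := congrFun (congrFun h 1) 1
  rw [Matrix.mul_apply, Fin.sum_univ_two] at e00 e01 e10 e11
  change δ 0 0 * (t.1 : ℤ) + δ 0 1 * 0 = (t'.1 : ℤ) at e00
  change δ 0 0 * (t.2.1 : ℤ) + δ 0 1 * (t.2.2 : ℤ) = (t'.2.1 : ℤ) at e01
  change δ 1 0 * (t.1 : ℤ) + δ 1 1 * 0 = 0 at e10
  change δ 1 0 * (t.2.1 : ℤ) + δ 1 1 * (t.2.2 : ℤ) = (t'.2.2 : ℤ) at e11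
  have hdet : δ 0 0 * δ 1 1 - δ 0 1 * δ 1 0 = 1 := by
    have := δ.2
    rw [Matrix.det_fin_two] at this
    exact this
  have hr : δ 1 0 = 0 := by
    rw [mul_zero, add_zero] at e10
    rcases mul_eq_zero.1 e10 with h3 | h3
    · exact h3
    · exfalso
      have : (0 : ℤ) < t.1 := by exact_mod_cast ha
      omega
  rw [hr, mul_zero, sub_zero] at hdet
  rw [mul_zero, add_zero] at e00
  have hp : 0 < δ 0 0 := by
    have h3 : (0 : ℤ) < δ 0 0 * t.1 := by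
      rw [e00]
      exact_mod_cast ha'
    exact (mul_pos_iff_of_pos_right (by exact_mod_cast ha)).1 h3
  have hp1 : δ 0 0 = 1 := by
    rcases Int.mul_eq_one_iff_eq_one_or_neg_one.1 hdet with h3 | h3
    · exact h3.1
    · omega
  rw [hp1, one_mul] at hdet e00 e01
  rw [hr, hdet, zero_mul, zero_add, one_mul] at e11
  have hq : δ 0 1 = 0 := by
    have h3 : (t.2.1 : ℤ) < t.2.2 := by exact_mod_cast h2
    have h3' : (t'.2.1 : ℤ) < t'.2.2 := by exact_mod_cast h2'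
    have h4 : (0 : ℤ) ≤ t.2.1 := Int.natCast_nonneg _
    have h4' : (0 : ℤ) ≤ t'.2.1 := Int.natCast_nonneg _
    rw [← e11] at h3'
    have h5 : δ 0 1 * (t.2.2 : ℤ) < t.2.2 := by linarith
    have h6 : -(t.2.2 : ℤ) < δ 0 1 * (t.2.2 : ℤ) := by linarith
    have hd : (0 : ℤ) < t.2.2 := by linarith
    have h7 : δ 0 1 < 1 := by
      by_contra hcon
      push Not at hcon
      nlinarith
    have h8 : -1 < δ 0 1 := by
      by_contra hcon
      push Not at hcon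
      nlinarith
    omega
  rw [hq, zero_mul, add_zero] at e01
  constructor
  · apply Prod.ext
    · exact_mod_cast e00
    · apply Prod.ext
      · exact_mod_cast e01
      · exact_mod_cast e11
  · ext i j
    fin_cases i <;> fin_cases j
    · exact hp1
    · exact hq
    · exact hr
    · exact hdet

theorem Prim.adj {A : Matrix (Fin 2) (Fin 2) ℤ} (hA : Prim A) : Prim A.adjugate := by
  rw [Matrix.adjugate_fin_two]
  intro p h1 h2 h3 h4
  replace h1 : p ∣ A 1 1 := h1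
  replace h2 : p ∣ -A 0 1 := h2
  replace h3 : p ∣ -A 1 0 := h3
  replace h4 : p ∣ A 0 0 := h4
  exact hA p h4 ((Int.dvd_neg).1 h2) ((Int.dvd_neg).1 h3) h1

/-- Two primitive matrices with proportional multiples are equal up to sign. -/
theorem Prim.eq_of_smul {A B : Matrix (Fin 2) (Fin 2) ℤ} (hA : Prim A) (hB : Prim B) {m n : ℤ}
    (hm : m ≠ 0) (h : m • A = n • B) : A = B ∨ A = -B := by
  rw [prim_iff] at hA hB
  have he : ∀ i j, m * A i j = n * B i j := by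
    intro i j
    have := congrFun (congrFun h i) j
    simpa [Matrix.smul_apply] using this
  obtain ⟨m', hm'⟩ : ((Int.gcd m n : ℕ) : ℤ) ∣ m := Int.gcd_dvd_left _ _
  obtain ⟨n', hn'⟩ : ((Int.gcd m n : ℕ) : ℤ) ∣ n := Int.gcd_dvd_right _ _
  have hg0 : ((Int.gcd m n : ℕ) : ℤ) ≠ 0 := by
    intro h0
    rw [h0, zero_mul] at hm'
    exact hm hm'
  have hcop : IsCoprime m' n' := by
    have h1 := Int.gcd_eq_gcd_ab m n
    refine ⟨Int.gcdA m n, Int.gcdB m n, ?_⟩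
    apply mul_left_cancel₀ hg0
    linear_combination -h1 - Int.gcdA m n * hm' - Int.gcdB m n * hn'
  have he' : ∀ i j, m' * A i j = n' * B i j := by
    intro i j
    apply mul_left_cancel₀ hg0
    have := he i j
    linear_combination this - A i j * hm' + B i j * hn'
  have hn1 : IsUnit n' := by
    apply hA
    intro i j
    exact hcop.symm.dvd_of_dvd_mul_left ⟨B i j, he' i j⟩
  have hm1 : IsUnit m' := by
    apply hB
    intro i j
    exact hcop.dvd_of_dvd_mul_left ⟨A i j, (he' i j).symm⟩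
  rcases Int.isUnit_iff.1 hm1 with hm2 | hm2 <;> rcases Int.isUnit_iff.1 hn1 with hn2 | hn2
  · left
    ext i j
    have := he' i j
    rw [hm2, hn2] at this
    linarith
  · right
    ext i j
    have := he' i j
    rw [hm2, hn2] at this
    rw [Matrix.neg_apply]
    linarith
  · right
    ext i j
    have := he' i j
    rw [hm2, hn2] at this
    rw [Matrix.neg_apply]
    linarith
  · left
    ext i j
    have := he' i j
    rw [hm2, hn2] at this
    linarith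

/-- Every matrix of positive determinant is a positive multiple of a primitive one. -/
theorem exists_prim (A : Matrix (Fin 2) (Fin 2) ℤ) (hA : 0 < A.det) :
    ∃ (m : ℤ) (B : Matrix (Fin 2) (Fin 2) ℤ), 0 < m ∧ Prim B ∧ 0 < B.det ∧ A = m • B := by
  set m : ℕ := Nat.gcd (Int.gcd (A 0 0) (A 0 1)) (Int.gcd (A 1 0) (A 1 1)) with hm
  have d1 : (m : ℤ) ∣ (Int.gcd (A 0 0) (A 0 1) : ℕ) := Int.natCast_dvd_natCast.2 (Nat.gcd_dvd_left _ _)
  have d2 : (m : ℤ) ∣ (Int.gcd (A 1 0) (A 1 1) : ℕ) := Int.natCast_dvd_natCast.2 (Nat.gcd_dvd_right _ _)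
  have d00 : (m : ℤ) ∣ A 0 0 := d1.trans (Int.gcd_dvd_left _ _)
  have d01 : (m : ℤ) ∣ A 0 1 := d1.trans (Int.gcd_dvd_right _ _)
  have d10 : (m : ℤ) ∣ A 1 0 := d2.trans (Int.gcd_dvd_left _ _)
  have d11 : (m : ℤ) ∣ A 1 1 := d2.trans (Int.gcd_dvd_right _ _)
  obtain ⟨b00, h00⟩ := d00
  obtain ⟨b01, h01⟩ := d01
  obtain ⟨b10, h10⟩ := d10
  obtain ⟨b11, h11⟩ := d11
  have hm0 : m ≠ 0 := by
    intro h0
    rw [h0, Nat.cast_zero, zero_mul] at h00 h01
    rw [Matrix.det_fin_two, h00, h01] at hA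
    simp at hA
  have hmz : (m : ℤ) ≠ 0 := by exact_mod_cast hm0
  have hAB : A = (m : ℤ) • !![b00, b01; b10, b11] := by
    ext i j
    fin_cases i <;> fin_cases j
    · simpa using h00
    · simpa using h01
    · simpa using h10
    · simpa using h11
  refine ⟨m, !![b00, b01; b10, b11], by positivity, ?_, ?_, hAB⟩
  · intro p h1 h2 h3 h4
    replace h1 : p ∣ b00 := h1
    replace h2 : p ∣ b01 := h2
    replace h3 : p ∣ b10 := h3
    replace h4 : p ∣ b11 := h4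
    have e00 : (m : ℤ) * p ∣ A 0 0 := by rw [h00]; exact mul_dvd_mul_left _ h1
    have e01 : (m : ℤ) * p ∣ A 0 1 := by rw [h01]; exact mul_dvd_mul_left _ h2
    have e10 : (m : ℤ) * p ∣ A 1 0 := by rw [h10]; exact mul_dvd_mul_left _ h3
    have e11 : (m : ℤ) * p ∣ A 1 1 := by rw [h11]; exact mul_dvd_mul_left _ h4
    have e1 : (m : ℤ) * p ∣ (Int.gcd (A 0 0) (A 0 1) : ℕ) := Int.dvd_coe_gcd e00 e01
    have e2 : (m : ℤ) * p ∣ (Int.gcd (A 1 0) (A 1 1) : ℕ) := Int.dvd_coe_gcd e10 e11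
    have e3 : (m : ℤ) * p ∣ (m : ℤ) := by
      have e4 := Int.dvd_coe_gcd e1 e2
      rw [Int.gcd_natCast_natCast] at e4
      exact e4
    obtain ⟨q, hq⟩ := e3
    refine IsUnit.of_mul_eq_one q ?_
    apply mul_left_cancel₀ hmz
    linear_combination -hq
  · rw [hAB, Matrix.det_smul, Fintype.card_fin] at hA
    exact (mul_pos_iff_of_pos_left (by positivity)).1 hA

theorem exists_triple {N : ℕ} (hN : 1 ≤ N) (A : Matrix (Fin 2) (Fin 2) ℤ) (hdet : A.det = N)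
    (hp : Prim A) : ∃ (γ : SL(2, ℤ)) (t : ℕ × ℕ × ℕ), t ∈ triples N ∧ A = γ.1 * tm t := by
  obtain ⟨γ, t, ht, h⟩ := exists_hermite hN A hdet hp
  refine ⟨γ⁻¹, t, ht, ?_⟩
  rw [← h]
  show A = ((γ⁻¹ : SL(2, ℤ)) : Matrix (Fin 2) (Fin 2) ℤ) * ((γ : Matrix (Fin 2) (Fin 2) ℤ) * A)
  rw [← mul_assoc, sl_inv_mul, one_mul]

theorem triple_unique {N : ℕ} (hN : 1 ≤ N) {t t' : ℕ × ℕ × ℕ} (ht : t ∈ triples N)
    (ht' : t' ∈ triples N) (γ : SL(2, ℤ)) (h : γ.1 * tm t = tm t') : t = t' :=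
  (triple_unique' hN ht ht' γ h).1

/-- Right multiplication by a matrix of `SL₂(ℤ)` permutes the triples. -/
theorem exists_perm {N : ℕ} (hN : 1 ≤ N) (γ : SL(2, ℤ)) :
    ∃ σ : Equiv.Perm {t : ℕ × ℕ × ℕ // t ∈ triples N}, ∀ t, ∃ δ : SL(2, ℤ),
      tm t.1 * γ.1 = δ.1 * tm (σ t).1 := by
  have h1 : ∀ t : {t : ℕ × ℕ × ℕ // t ∈ triples N}, ∃ t' : {t : ℕ × ℕ × ℕ // t ∈ triples N},
      ∃ δ : SL(2, ℤ), tm t.1 * γ.1 = δ.1 * tm t'.1 := by
    intro t
    have hd : (tm t.1 * γ.1).det = N := by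
      rw [Matrix.det_mul, det_tm t.2, γ.2, mul_one]
    obtain ⟨δ, t', ht', h⟩ := exists_triple hN _ hd ((prim_tm t.2).mul_sl γ)
    exact ⟨⟨t', ht'⟩, δ, h⟩
  choose φ hφ using h1
  have hinj : Function.Injective φ := by
    intro t₁ t₂ h
    obtain ⟨δ₁, h₁⟩ := hφ t₁
    obtain ⟨δ₂, h₂⟩ := hφ t₂
    rw [h] at h₁
    apply Subtype.ext
    apply triple_unique hN t₁.2 t₂.2 (δ₂ * δ₁⁻¹)
    have h3 : tm (φ t₂).1 = δ₁⁻¹.1 * (tm t₁.1 * γ.1) := by
      rw [h₁]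
      show _ = ((δ₁⁻¹ : SL(2, ℤ)) : Matrix (Fin 2) (Fin 2) ℤ) *
        ((δ₁ : Matrix (Fin 2) (Fin 2) ℤ) * tm (φ t₂).1)
      rw [← mul_assoc, sl_inv_mul, one_mul]
    rw [h3] at h₂
    have h4 : tm t₂.1 * γ.1 * γ⁻¹.1 = δ₂.1 * (δ₁⁻¹.1 * (tm t₁.1 * γ.1)) * γ⁻¹.1 := by rw [h₂]
    have h5 : γ.1 * γ⁻¹.1 = 1 := sl_mul_inv γ
    have h6 : (δ₂ * δ₁⁻¹).1 = δ₂.1 * δ₁⁻¹.1 := rfl
    rw [h6]
    rw [mul_assoc, h5, mul_one] at h4
    rw [h4]
    simp only [mul_assoc]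
    rw [h5, mul_one]
  have hb : Function.Bijective φ := Finite.injective_iff_bijective.1 hinj
  exact ⟨Equiv.ofBijective φ hb, hφ⟩

private theorem mat_coprime {a b d : ℕ} (ha : 0 < a) (h : Nat.gcd (Nat.gcd a b) d = 1) :
    ∃ v : ℕ, Nat.Coprime a (b + v * d) := by
  refine ⟨∏ p ∈ a.primeFactors.filter fun p => ¬ p ∣ b, p, ?_⟩
  rw [Nat.coprime_iff_gcd_eq_one]
  by_contra hne
  obtain ⟨p, hp, hpd⟩ := Nat.exists_prime_and_dvd hne
  have hpa : p ∣ a := hpd.trans (Nat.gcd_dvd_left _ _)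
  have hps : p ∣ b + (∏ p ∈ a.primeFactors.filter fun p => ¬ p ∣ b, p) * d :=
    hpd.trans (Nat.gcd_dvd_right _ _)
  by_cases hpb : p ∣ b
  · have h1 : p ∣ (∏ p ∈ a.primeFactors.filter fun p => ¬ p ∣ b, p) * d :=
      (Nat.dvd_add_right hpb).1 hps
    rcases (Nat.Prime.dvd_mul hp).1 h1 with h2 | h2
    · rw [Prime.dvd_finsetProd_iff hp.prime] at h2
      obtain ⟨q, hq, hpq⟩ := h2
      rw [Finset.mem_filter] at hq
      have h3 : p = q := (Nat.prime_dvd_prime_iff_eq hp (Nat.prime_of_mem_primeFactors hq.1)).1 hpq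
      exact hq.2 (h3 ▸ hpb)
    · have h3 := Nat.dvd_gcd (Nat.dvd_gcd hpa hpb) h2
      rw [h] at h3
      exact hp.one_lt.ne' (Nat.dvd_one.1 h3)
  · have h1 : p ∣ (∏ p ∈ a.primeFactors.filter fun p => ¬ p ∣ b, p) := by
      apply Finset.dvd_prod_of_mem (fun p => p)
      rw [Finset.mem_filter]
      exact ⟨Nat.mem_primeFactors.2 ⟨hp, hpa, ha.ne'⟩, hpb⟩
    exact hpb ((Nat.dvd_add_left (h1.mul_right d)).1 hps)

/-- The triples form one double coset (elementary divisors). -/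
theorem exists_transit {N : ℕ} (hN : 1 ≤ N) {t : ℕ × ℕ × ℕ} (ht : t ∈ triples N) :
    ∃ γ δ : SL(2, ℤ), tm (N, 0, 1) * γ.1 = δ.1 * tm t := by
  obtain ⟨hmul, -, hgcd⟩ := (mem_triples hN).1 ht
  obtain ⟨a, b, d⟩ := t
  simp only at hmul hgcd
  have ha : 0 < a := by
    rcases Nat.eq_zero_or_pos a with h0 | h0
    · rw [h0, zero_mul] at hmul
      omega
    · exact h0
  obtain ⟨v, hv⟩ := mat_coprime ha hgcd
  obtain ⟨p, q, hpq⟩ : ∃ p q : ℤ, p * ((b + v * d : ℕ) : ℤ) - q * (a : ℤ) = 1 := by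
    have h1 : IsCoprime (a : ℤ) ((b + v * d : ℕ) : ℤ) := Nat.isCoprime_iff_coprime.2 hv
    obtain ⟨x, y, hxy⟩ := h1
    exact ⟨y, -x, by linear_combination hxy⟩
  have hmul' : (a : ℤ) * d = N := by exact_mod_cast hmul
  have hγ : Matrix.det !![p, q; (a : ℤ), ((b + v * d : ℕ) : ℤ)] = 1 := by
    rw [Matrix.det_fin_two_of]
    linear_combination hpq
  have hδ : Matrix.det !![(d : ℤ) * p, -1 + (d : ℤ) * p * v; 1, (v : ℤ)] = 1 := by
    rw [Matrix.det_fin_two_of]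
    ring
  refine ⟨⟨_, hγ⟩, ⟨_, hδ⟩, ?_⟩
  show tm (N, 0, 1) * !![p, q; (a : ℤ), ((b + v * d : ℕ) : ℤ)] =
    !![(d : ℤ) * p, -1 + (d : ℤ) * p * v; 1, (v : ℤ)] * tm (a, b, d)
  unfold tm
  ext i j
  rw [Matrix.mul_apply, Matrix.mul_apply, Fin.sum_univ_two, Fin.sum_univ_two]
  fin_cases i <;> fin_cases j
  · simp
    linear_combination (-p) * hmul'
  · simp
    push_cast at hpq
    linear_combination (-q) * hmul' + (d : ℤ) * (-hpq)
  · simp
  · simp

end Pool.Agent.Lib.MP_a325a5_ag.MU
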