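import Mathlib
import Pool.Agent.Lib.MP_a325a5_ag.MU.Mod

/-!
The `j`-invariant is surjective.
-/

set_option autoImplicit false

namespace Pool.Agent.Lib.MP_a325a5_ag.MU

open UpperHalfPlane ModularForm ModularFormClass MatrixGroups EisensteinSeries Filter Topology
open scoped Manifold

/-- The limit of a modular form of level one at `i ∞`. -/
theorem surj_tendsto_infty {k : ℤ} (f : ModularForm 𝒮ℒ k) :
    Tendsto f atImInfty (𝓝 ((qExpansion 1 f).coeff 0)) := by
  have hanal := ModularFormClass.analyticAt_cuspFunction_zero f one_pos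
    (one_mem_strictPeriods_SL)
  have hper := SlashInvariantFormClass.periodic_comp_ofComplex f (one_mem_strictPeriods_SL)
  rw [qExpansion_coeff_zero one_pos hanal hper, ← cuspFunction_apply_zero one_pos hanal hper]
  exact (hanal.continuousAt.tendsto.comp (qParam_tendsto_atImInfty one_pos)).congr
    (fun τ ↦ SlashInvariantFormClass.eq_cuspFunction f τ one_mem_strictPeriods_SL one_ne_zero)

/-- The form `E₄³ - c Δ`. -/
noncomputable def surjF (c : ℂ) : ModularForm 𝒮ℒ 12 :=
  ModularForm.mcast (by norm_num) (E₄.pow 3) - c • CuspForm.toModularFormₗ CuspForm.discriminant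

theorem surjF_apply (c : ℂ) (z : ℍ) :
    surjF c z = E₄ z ^ 3 - c * ModularForm.discriminant z := by
  simp only [surjF, sub_apply, ModularForm.coe_mcast, ModularForm.coe_pow,
    Pi.pow_apply]
  rfl

theorem surjF_coeff (c : ℂ) : (qExpansion 1 (surjF c)).coeff 0 = 1 := by
  have h4 := E_qExpansion_coeff_zero (k := 4) (by norm_num) ⟨2, rfl⟩
  have hd := CuspFormClass.qExpansion_coeff_zero CuspForm.discriminant one_pos
    one_mem_strictPeriods_SL
  unfold surjF
  rw [FunLike.coe_sub, ModularForm.qExpansion_sub one_pos one_mem_strictPeriods_SL,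
    FunLike.coe_smul, ModularForm.qExpansion_smul one_pos one_mem_strictPeriods_SL, map_sub,
    PowerSeries.coeff_smul, ModularForm.coe_mcast,
    ModularForm.qExpansion_pow one_pos one_mem_strictPeriods_SL]
  have hd' : (qExpansion 1 (CuspForm.toModularFormₗ CuspForm.discriminant)).coeff 0 = 0 := hd
  rw [hd', PowerSeries.coeff_zero_eq_constantCoeff] at *
  simp [h4]

theorem surj_slash (c : ℂ) (γ : SL(2, ℤ)) :
    (fun z ↦ ModularForm.discriminant z / surjF c z) ∣[(12 - 12 : ℤ)] γ =
      fun z ↦ ModularForm.discriminant z / surjF c z := by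
  have hγ : (γ : GL (Fin 2) ℝ) ∈ 𝒮ℒ := ⟨γ, rfl⟩
  change (⇑CuspForm.discriminant / ⇑(surjF c)) ∣[(12 - 12 : ℤ)] γ =
    ⇑CuspForm.discriminant / ⇑(surjF c)
  simp_rw [div_slash_SL2, SL_slash, SlashInvariantFormClass.slash_action_eq _ _ hγ]

/-- The `j`-invariant is surjective. -/
theorem jInv_surj : Function.Surjective jInv := by
  intro c
  by_contra hno
  push Not at hno
  have hF : ∀ z : ℍ, surjF c z ≠ 0 := by
    intro z h0
    rw [surjF_apply] at h0
    apply hno z
    unfold jInv
    rw [div_eq_iff (discriminant_ne_zero z)]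
    linear_combination h0
  have hlim : Tendsto (fun z : ℍ ↦ ModularForm.discriminant z / surjF c z) atImInfty (𝓝 0) := by
    have h1 : Tendsto (fun z : ℍ ↦ ModularForm.discriminant z) atImInfty (𝓝 0) :=
      CuspFormClass.zero_at_infty CuspForm.discriminant
    have h2 := surj_tendsto_infty (surjF c)
    rw [surjF_coeff] at h2
    have := h1.div h2 one_ne_zero
    rwa [zero_div] at this
  let g : ModularForm 𝒮ℒ (12 - 12) :=
    { toFun z := ModularForm.discriminant z / surjF c z
      slash_action_eq' := fun _ ⟨γ, hγ⟩ ↦ hγ ▸ surj_slash c γ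
      holo' := CuspForm.discriminant.holo'.div (surjF c).holo' hF
      bdd_at_cusps' {c'} hc := by
        rw [Subgroup.IsArithmetic.isCusp_iff_isCusp_SL2Z] at hc
        rw [OnePoint.isBoundedAt_iff_forall_SL2Z hc]
        intro γ _
        rw [surj_slash c γ, IsBoundedAtImInfty, BoundedAtFilter]
        exact hlim.isBigO_one ℝ }
  obtain ⟨a, ha⟩ := levelOne_weight_zero_const (F := ModularForm 𝒮ℒ 0) (show ModularForm 𝒮ℒ 0 from g)
  have hg : ∀ z : ℍ, ModularForm.discriminant z / surjF c z = a := fun z => congrFun ha z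
  have ha0 : a = 0 := by
    have h1 : Tendsto (fun _ : ℍ ↦ a) atImInfty (𝓝 0) := hlim.congr hg
    exact tendsto_nhds_unique tendsto_const_nhds h1
  have h2 := hg UpperHalfPlane.I
  rw [ha0] at h2
  rcases div_eq_zero_iff.1 h2 with h3 | h3
  · exact discriminant_ne_zero _ h3
  · exact hF _ h3

end Pool.Agent.Lib.MP_a325a5_ag.MU
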