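import Pool.Agent.Lib.MP_a325a5_ag.MU.AN.Act
import Pool.Agent.Lib.MP_a325a5_ag.MU.AN.Mat
import Pool.Agent.Lib.MP_a325a5_ag.MU.AN.Inj
import Pool.Agent.Lib.MP_a325a5_ag.MU.AN.Surj

/-! Imaginary quadratic points, and matrices which map a point to points with the same value of
the `j`-invariant. -/

set_option autoImplicit false

namespace Pool.Agent.Lib.MP_a325a5_ag.MU

open UpperHalfPlane MatrixGroups

private theorem quad_large {a b c : ℤ} (ha : a ≠ 0) :
    ∃ n : ℤ, (∃ t : ℤ, n = a * t + 1) ∧ 2 ≤ n * (n + b) + a * c := by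
  refine ⟨a * (a * (|b| + |a * c| + 2)) + 1, ⟨_, rfl⟩, ?_⟩
  have h1 : 1 ≤ a * a := by
    have := mul_self_pos.2 ha
    omega
  have h2 : 0 ≤ |b| := abs_nonneg b
  have h3 : 0 ≤ |a * c| := abs_nonneg _
  have h4 : -|b| ≤ b := neg_abs_le b
  have h5 : -|a * c| ≤ a * c := neg_abs_le _
  have h6 : |b| + |a * c| + 3 ≤ a * (a * (|b| + |a * c| + 2)) + 1 := by nlinarith
  generalize a * (a * (|b| + |a * c| + 2)) + 1 = n at h6
  nlinarith

theorem quad_iff (τ : ℍ) : Quad τ ↔ ∃ (N : ℕ) (A : Matrix (Fin 2) (Fin 2) ℤ), 2 ≤ N ∧ Prim A ∧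
    A.det = N ∧ Act A τ τ := by
  constructor
  · rintro ⟨a, b, c, ha, h⟩
    obtain ⟨n, ⟨t, ht⟩, hn⟩ := quad_large (b := b) (c := c) ha
    have hdet : (!![n, -c; a, n + b] : Matrix (Fin 2) (Fin 2) ℤ).det = n * (n + b) + a * c := by
      rw [Matrix.det_fin_two_of]
      ring
    refine ⟨(n * (n + b) + a * c).toNat, !![n, -c; a, n + b], ?_, ?_, ?_, ?_⟩
    · omega
    · intro m h1 _ h3 _
      simp only [Matrix.of_apply, Matrix.cons_val', Matrix.cons_val_zero, Matrix.cons_val_one,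
        Matrix.cons_val_fin_one] at h1 h3
      rw [isUnit_iff_dvd_one]
      have h5 : m ∣ n - a * t := dvd_sub h1 (h3.mul_right t)
      have h6 : n - a * t = 1 := by rw [ht]; ring
      rwa [h6] at h5
    · rw [hdet, Int.toNat_of_nonneg (by omega)]
    · unfold Act
      simp only [Matrix.of_apply, Matrix.cons_val', Matrix.cons_val_zero, Matrix.cons_val_one,
        Matrix.cons_val_fin_one]
      push_cast
      linear_combination h
  · rintro ⟨N, A, hN, hp, hdet, h⟩
    refine Act.quad (A := A) (by rw [hdet]; exact_mod_cast (by omega : N ≠ 0)) ?_ h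
    rintro ⟨h1, h2, h3⟩
    have hu : IsUnit (A 0 0) := hp (A 0 0) dvd_rfl (by rw [h1]; exact dvd_zero _)
      (by rw [h2]; exact dvd_zero _) (by rw [h3])
    rw [Matrix.det_fin_two, h1, h2, ← h3, mul_zero, sub_zero] at hdet
    have h4 : A 0 0 * A 0 0 = 1 := by
      rcases Int.isUnit_iff.1 hu with h | h <;> rw [h] <;> norm_num
    rw [h4] at hdet
    omega

theorem quad_act {A : Matrix (Fin 2) (Fin 2) ℤ} (hA : A.det ≠ 0) {τ τ' : ℍ} (h : Act A τ τ')
    (hq : Quad τ) : Quad τ' := by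
  obtain ⟨N, B, hN, hp, hdet, hB⟩ := (quad_iff τ).1 hq
  have hN0 : (N : ℤ) ≠ 0 := by exact_mod_cast (by omega : N ≠ 0)
  have h1 : Act (A * (B * A.adjugate)) τ' τ' := ((h.adj hA).mul hB).mul h
  have hadj : A.adjugate.det ≠ 0 := by
    rw [Matrix.det_adjugate]
    exact pow_ne_zero _ hA
  refine Act.quad (A := A * (B * A.adjugate)) ?_ ?_ h1
  · rw [Matrix.det_mul, Matrix.det_mul, hdet]
    exact mul_ne_zero hA (mul_ne_zero hN0 hadj)
  · rintro ⟨s1, s2, s3⟩
    have hs : A * (B * A.adjugate) = (A * (B * A.adjugate)) 0 0 • (1 : Matrix (Fin 2) (Fin 2) ℤ) := by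
      ext i j
      fin_cases i <;> fin_cases j
      · simp
      · simpa using s1
      · simpa using s2
      · simpa using s3.symm
    generalize (A * (B * A.adjugate)) 0 0 = e at hs
    have h2 : A.det • (A.det • B) = A.det • (e • (1 : Matrix (Fin 2) (Fin 2) ℤ)) := by
      calc A.det • (A.det • B) = A.adjugate * (A * (B * A.adjugate)) * A := by
            rw [← Matrix.mul_assoc, ← Matrix.mul_assoc, Matrix.adjugate_mul, Matrix.mul_assoc,
              Matrix.mul_assoc, Matrix.adjugate_mul, Matrix.smul_mul, Matrix.one_mul,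
              Matrix.mul_smul, Matrix.mul_one]
        _ = A.det • (e • (1 : Matrix (Fin 2) (Fin 2) ℤ)) := by
            rw [hs, Matrix.mul_smul, Matrix.mul_one, Matrix.smul_mul, Matrix.adjugate_mul,
              smul_comm]
    have h3 : A.det • B = e • (1 : Matrix (Fin 2) (Fin 2) ℤ) := by
      ext i j
      have h4 := congrFun (congrFun h2 i) j
      simp only [Matrix.smul_apply, smul_eq_mul] at h4 ⊢
      exact mul_left_cancel₀ hA h4
    have e1 : A.det * B 0 1 = 0 := by
      have := congrFun (congrFun h3 0) 1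
      simpa using this
    have e2 : A.det * B 1 0 = 0 := by
      have := congrFun (congrFun h3 1) 0
      simpa using this
    have e3 : A.det * B 0 0 = e := by
      have := congrFun (congrFun h3 0) 0
      simpa using this
    have e4 : A.det * B 1 1 = e := by
      have := congrFun (congrFun h3 1) 1
      simpa using this
    have f1 : B 0 1 = 0 := (mul_eq_zero.1 e1).resolve_left hA
    have f2 : B 1 0 = 0 := (mul_eq_zero.1 e2).resolve_left hA
    have f3 : B 0 0 = B 1 1 := mul_left_cancel₀ hA (e3.trans e4.symm)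
    have hu : IsUnit (B 0 0) := hp (B 0 0) dvd_rfl (by rw [f1]; exact dvd_zero _)
      (by rw [f2]; exact dvd_zero _) (by rw [f3])
    rw [Matrix.det_fin_two, f1, f2, ← f3, mul_zero, sub_zero] at hdet
    have h4 : B 0 0 * B 0 0 = 1 := by
      rcases Int.isUnit_iff.1 hu with h | h <;> rw [h] <;> norm_num
    rw [h4] at hdet
    omega

/-- The quadratic points are countable (with `jInv_surj`: the other values of `jInv` are
infinitely many). -/
theorem quad_countable : {τ : ℍ | Quad τ}.Countable := by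
  have h1 : {x : ℂ | IsAlgebraic ℤ x}.Countable := Algebraic.countable ℤ ℂ
  refine (h1.preimage_of_injOn (f := fun τ : ℍ => (τ : ℂ))
    (fun x _ y _ h => UpperHalfPlane.ext h)).mono ?_
  rintro τ ⟨a, b, c, ha, h⟩
  refine ⟨Polynomial.C a * Polynomial.X ^ 2 + Polynomial.C b * Polynomial.X + Polynomial.C c,
    ?_, ?_⟩
  · intro h0
    have h2 := Polynomial.leadingCoeff_quadratic (b := b) (c := c) ha
    rw [h0, Polynomial.leadingCoeff_zero] at h2
    exact ha h2.symm
  · simpa using h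

private theorem quad_uncountable : ¬ (Set.univ : Set ℍ).Countable := by
  intro h
  have h1 : Function.Injective fun x : ℝ => (⟨⟨x, 1⟩, one_pos⟩ : ℍ) := by
    intro x y hxy
    have h2 := congrArg (fun τ : ℍ => (τ : ℂ).re) hxy
    exact h2
  have h2 : (Set.univ : Set ℝ).Countable := by
    have := h.preimage_of_injOn (f := fun x : ℝ => (⟨⟨x, 1⟩, one_pos⟩ : ℍ)) (h1.injOn)
    rwa [Set.preimage_univ] at this
  exact Cardinal.not_countable_real h2

theorem exists_not_quad : ∃ τ : ℍ, ¬ Quad τ := by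
  by_contra hcon
  push Not at hcon
  apply quad_uncountable
  convert quad_countable
  ext τ
  simp [hcon τ]

theorem jInv_not_quad_infinite : {x : ℂ | ∃ τ : ℍ, ¬ Quad τ ∧ jInv τ = x}.Infinite := by
  intro hfin
  have h1 : (Set.univ : Set ℂ) ⊆ jInv '' {τ : ℍ | Quad τ} ∪
      {x : ℂ | ∃ τ : ℍ, ¬ Quad τ ∧ jInv τ = x} := by
    intro x _
    obtain ⟨τ, hτ⟩ := jInv_surj x
    by_cases hq : Quad τ
    · exact Or.inl ⟨τ, hq, hτ⟩
    · exact Or.inr ⟨τ, hq, hτ⟩
  exact not_countable_complex (((quad_countable.image jInv).union hfin.countable).mono h1)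

/-- Two primitive matrices of positive determinant which map a point `τ` that is not quadratic to
points with the same value of `jInv` differ by an element of `SL₂(ℤ)`. -/
theorem act_inj {A B : Matrix (Fin 2) (Fin 2) ℤ} (hA : Prim A) (hB : Prim B) (hdA : 0 < A.det)
    (hdB : 0 < B.det) {τ τ₁ τ₂ : ℍ} (hq : ¬ Quad τ) (h1 : Act A τ τ₁) (h2 : Act B τ τ₂)
    (h : jInv τ₁ = jInv τ₂) : ∃ γ : SL(2, ℤ), γ.1 * A = B := by
  obtain ⟨γ, hγ⟩ := jInv_inj τ₁ τ₂ h
  have h3 : Act (γ.1 * A) τ τ₂ := by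
    have := h1.mul (act_sl γ τ₁)
    rwa [hγ] at this
  have h4 : Act (B.adjugate * (γ.1 * A)) τ τ := h3.mul (h2.adj hdB.ne')
  have hdet : (B.adjugate * (γ.1 * A)).det ≠ 0 := by
    rw [Matrix.det_mul, Matrix.det_mul, Matrix.det_adjugate, γ.2, one_mul]
    exact mul_ne_zero (pow_ne_zero _ hdB.ne') hdA.ne'
  have hs : Scal (B.adjugate * (γ.1 * A)) := by
    by_contra hs
    exact hq (Act.quad hdet hs h4)
  obtain ⟨s1, s2, s3⟩ := hs
  have hs : B.adjugate * (γ.1 * A) =
      (B.adjugate * (γ.1 * A)) 0 0 • (1 : Matrix (Fin 2) (Fin 2) ℤ) := by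
    ext i j
    fin_cases i <;> fin_cases j
    · simp
    · simpa using s1
    · simpa using s2
    · simpa using s3.symm
  generalize (B.adjugate * (γ.1 * A)) 0 0 = e at hs
  have h5 : B.det • (γ.1 * A) = e • B := by
    have h6 : B * (B.adjugate * (γ.1 * A)) = B * (e • (1 : Matrix (Fin 2) (Fin 2) ℤ)) := by
      rw [hs]
    rwa [← Matrix.mul_assoc, Matrix.mul_adjugate, Matrix.smul_mul, Matrix.one_mul,
      Matrix.mul_smul, Matrix.mul_one] at h6
  rcases Prim.eq_of_smul (hA.sl_mul γ) hB hdB.ne' h5 with h6 | h6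
  · exact ⟨γ, h6⟩
  · refine ⟨-γ, ?_⟩
    have h7 : (-γ).1 = -γ.1 := Matrix.SpecialLinearGroup.coe_neg γ
    rw [h7, Matrix.neg_mul, h6, neg_neg]

end Pool.Agent.Lib.MP_a325a5_ag.MU
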