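import Pool.Agent.Lib.MP_a325a5_ag.MU.AN.Inj
import Pool.Agent.Lib.MP_a325a5_ag.MU.AN.Quad
import Pool.Agent.Lib.MP_a325a5_ag.MU.AN.Exist

/-! N12: the meaning of the modular polynomials over `ℂ`. -/

set_option autoImplicit false

namespace Pool.Agent.Lib.MP_a325a5_ag.MU

open Polynomial UpperHalfPlane MatrixGroups

private theorem cpx_phi {N : ℕ} (hN : 1 ≤ N) (τ : ℍ) (y : ℂ) : phi N (jInv τ) y =
    (∏ t ∈ triples N, (X - C (jInv (tpt t τ)))).eval y := by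
  rw [← isModPoly_modPoly hN τ, eval_map]
  rfl

private theorem cpx_dphi {N : ℕ} (hN : 1 ≤ N) (τ : ℍ) (y : ℂ) : dphi N (jInv τ) y =
    (derivative (∏ t ∈ triples N, (X - C (jInv (tpt t τ))))).eval y := by
  rw [← isModPoly_modPoly hN τ, derivative_map, eval_map]
  rfl

theorem phi_jInv {N : ℕ} (hN : 1 ≤ N) (τ : ℍ) (y : ℂ) : phi N (jInv τ) y = 0 ↔
    ∃ t ∈ triples N, y = jInv (tpt t τ) := by
  rw [cpx_phi hN, eval_prod, Finset.prod_eq_zero_iff]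
  simp only [eval_sub, eval_X, eval_C, sub_eq_zero]

theorem phi_act {N : ℕ} (hN : 1 ≤ N) (τ : ℍ) (y : ℂ) : phi N (jInv τ) y = 0 ↔
    ∃ (A : Matrix (Fin 2) (Fin 2) ℤ) (τ' : ℍ), Prim A ∧ A.det = N ∧ Act A τ τ' ∧ y = jInv τ' := by
  rw [phi_jInv hN]
  constructor
  · rintro ⟨t, ht, rfl⟩
    exact ⟨tm t, tpt t τ, prim_tm ht, det_tm ht, act_tpt hN ht τ, rfl⟩
  · rintro ⟨A, τ', hp, hdet, hA, rfl⟩
    obtain ⟨γ, t, ht, rfl⟩ := exists_triple hN A hdet hp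
    refine ⟨t, ht, ?_⟩
    have h1 : Act (γ.1 * tm t) τ (γ • tpt t τ) := (act_tpt hN ht τ).mul (act_sl γ (tpt t τ))
    have h2 : (γ.1 * tm t).det ≠ 0 := by
      rw [hdet]
      exact_mod_cast (by omega : N ≠ 0)
    rw [Act.unique h2 hA h1, jInv_sl]

theorem isCM_jInv (τ : ℍ) : IsCM (jInv τ) ↔ Quad τ := by
  rw [quad_iff]
  constructor
  · rintro ⟨N, hN, h⟩
    obtain ⟨A, τ', hp, hdet, hA, hj⟩ := (phi_act (by omega) τ _).1 h
    obtain ⟨γ, hγ⟩ := jInv_inj τ' τ hj.symm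
    refine ⟨N, γ.1 * A, hN, hp.sl_mul γ, ?_, ?_⟩
    · rw [Matrix.det_mul, γ.2, one_mul, hdet]
    · have h1 := hA.mul (act_sl γ τ')
      rwa [hγ] at h1
  · rintro ⟨N, A, hN, hp, hdet, hA⟩
    exact ⟨N, hN, (phi_act (by omega) τ _).2 ⟨A, τ, hp, hdet, hA, rfl⟩⟩

/-- A double root. -/
theorem dphi_jInv {N : ℕ} (hN : 1 ≤ N) (τ : ℍ) (y : ℂ) (h : phi N (jInv τ) y = 0)
    (h' : dphi N (jInv τ) y = 0) : ∃ t ∈ triples N, ∃ t' ∈ triples N, t ≠ t' ∧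
      y = jInv (tpt t τ) ∧ y = jInv (tpt t' τ) := by
  classical
  obtain ⟨t, ht, hy⟩ := (phi_jInv hN τ y).1 h
  rw [cpx_dphi hN, ← Finset.mul_prod_erase _ _ ht, derivative_mul, eval_add, eval_mul, eval_mul,
    derivative_sub, derivative_X, derivative_C, sub_zero, eval_one, one_mul, eval_sub, eval_X,
    eval_C, ← hy, sub_self, zero_mul, add_zero, eval_prod, Finset.prod_eq_zero_iff] at h'
  obtain ⟨t', ht', h1⟩ := h'
  rw [eval_sub, eval_X, eval_C, sub_eq_zero] at h1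
  exact ⟨t, ht, t', Finset.mem_of_mem_erase ht', (Finset.ne_of_mem_erase ht').symm, hy, h1⟩

end Pool.Agent.Lib.MP_a325a5_ag.MU
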