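import Pool.Agent.Lib.MP_a325a5_ag.MU.AN.Surj
import Pool.Agent.Lib.MP_a325a5_ag.MU.AN.Act
import Pool.Agent.Lib.MP_a325a5_ag.MU.AN.Mat
import Pool.Agent.Lib.MP_a325a5_ag.MU.AN.Quad
import Pool.Agent.Lib.MP_a325a5_ag.MU.AN.Exist
import Pool.Agent.Lib.MP_a325a5_ag.MU.AN.Cpx
import Pool.Agent.Lib.ModPoly29.Points

/-! The axioms over `ℂ`, first part. -/

set_option autoImplicit false

namespace Pool.Agent.Lib.MP_a325a5_ag.MU

open Polynomial UpperHalfPlane ModularForm ModularFormClass EisensteinSeries MatrixGroups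


/-- A polynomial whose value at every `jInv τ` is the rational number `c` is constant. -/
private theorem axC_const (P : ℚ[X]) (c : ℚ)
    (h : ∀ τ : ℍ, eval₂RingHom (Rat.castHom ℂ) (jInv τ) P = (c : ℂ)) : P = C c := by
  apply Polynomial.map_injective (Rat.castHom ℂ) (Rat.castHom ℂ).injective
  apply Polynomial.funext
  intro x
  obtain ⟨τ, rfl⟩ := jInv_surj x
  have h1 := h τ
  rw [coe_eval₂RingHom] at h1
  rw [eval_map, h1, eval_map, eval₂_C]
  rfl

theorem monic_modPoly {N : ℕ} (hN : 1 ≤ N) : (modPoly N).Monic := by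
  have hm : ∀ τ : ℍ, (∏ t ∈ triples N, (X - C (jInv (tpt t τ))) : ℂ[X]).Monic :=
    fun τ => monic_prod_of_monic _ _ fun t _ => monic_X_sub_C _
  have hd : ∀ τ : ℍ, (∏ t ∈ triples N, (X - C (jInv (tpt t τ))) : ℂ[X]).natDegree =
      (triples N).card := fun τ => by
    rw [natDegree_prod_of_monic _ _ fun t _ => monic_X_sub_C _]
    simp
  have hc : ∀ (τ : ℍ) (i : ℕ), eval₂RingHom (Rat.castHom ℂ) (jInv τ) ((modPoly N).coeff i) =
      (∏ t ∈ triples N, (X - C (jInv (tpt t τ))) : ℂ[X]).coeff i := fun τ i => by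
    rw [← isModPoly_modPoly hN τ, coeff_map]
  apply monic_of_natDegree_le_of_coeff_eq_one (triples N).card
  · rw [natDegree_le_iff_coeff_eq_zero]
    intro i hi
    have h1 := axC_const ((modPoly N).coeff i) 0 fun τ => by
      rw [hc, coeff_eq_zero_of_natDegree_lt (by rw [hd]; exact hi)]
      simp
    rw [h1, C_0]
  · have h1 := axC_const ((modPoly N).coeff (triples N).card) 1 fun τ => by
      rw [hc]
      have h2 := (hm τ).coeff_natDegree
      rw [hd] at h2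
      rw [h2]
      simp
    rw [h1, C_1]

private theorem axC_diag {L : Type} [Field L] [CharZero L] (N : ℕ) (x : L) :
    phi N x x = ((modPoly N).eval X).eval₂ (Rat.castHom L) x := by
  unfold phi
  have h1 : eval₂RingHom (Rat.castHom L) x (X : ℚ[X]) = x := by
    rw [coe_eval₂RingHom, eval₂_X]
  conv_lhs => rw [← h1]
  rw [h1, ← coe_eval₂RingHom (Rat.castHom L) x, ← eval₂_at_apply, h1]

theorem diag_modPoly {N : ℕ} (hN : 2 ≤ N) : (modPoly N).eval X ≠ 0 := by
  intro h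
  obtain ⟨τ, hτ⟩ := exists_not_quad
  apply hτ
  rw [← isCM_jInv]
  refine ⟨N, hN, ?_⟩
  rw [axC_diag, h, eval₂_zero]

theorem refl_C (x : ℂ) : phi 1 x x = 0 := by
  obtain ⟨τ, rfl⟩ := jInv_surj x
  rw [phi_act le_rfl]
  refine ⟨1, τ, ?_, by simp, ?_, rfl⟩
  · intro m h1 _ _ _
    simpa using isUnit_of_dvd_one (by simpa using h1)
  · unfold Act
    simp

theorem symm_C {N : ℕ} {x y : ℂ} (hN : 1 ≤ N) (h : phi N x y = 0) : phi N y x = 0 := by
  obtain ⟨τ, rfl⟩ := jInv_surj x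
  rw [phi_act hN] at h
  obtain ⟨A, τ', hA, hd, hact, rfl⟩ := h
  rw [phi_act hN]
  refine ⟨A.adjugate, τ, hA.adj, ?_, hact.adj ?_, rfl⟩
  · rw [Matrix.det_adjugate, hd]
    simp
  · rw [hd]
    exact_mod_cast (by omega : N ≠ 0)

theorem cm_zero_C : IsCM (0 : ℂ) := by
  -- the primitive third root of unity in the upper half-plane
  obtain ⟨ρ, hρ⟩ : ∃ ρ : ℍ, (ρ : ℂ) ^ 2 + (ρ : ℂ) + 1 = 0 := by
    refine ⟨⟨⟨-1 / 2, Real.sqrt 3 / 2⟩, ?_⟩, ?_⟩
    · simp
    · have h3 : Real.sqrt 3 * Real.sqrt 3 = 3 := Real.mul_self_sqrt (by norm_num)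
      apply Complex.ext
      · simp [pow_two]
        nlinarith
      · simp [pow_two]
        ring
  have hE : E₄ ρ = 0 := by
    have h1 := Pool.Agent.Lib.ModPoly29.level1_eq' (k := 4) E₄ 0 (-1) 1 1 (by norm_num) ρ ρ
      (by push_cast; linear_combination hρ)
    push_cast at h1
    have h2 : ((1 : ℂ) * ρ + 1) ^ (4 : ℤ) = (ρ : ℂ) ^ 2 := by
      have : ((1 : ℂ) * ρ + 1) ^ (4 : ℤ) = ((1 : ℂ) * ρ + 1) ^ (4 : ℕ) := by norm_cast
      rw [this]
      linear_combination ((ρ : ℂ) ^ 2 + 3 * ρ + 1) * hρ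
    rw [h2] at h1
    by_contra hne
    have h3 : (ρ : ℂ) ^ 2 = 1 := by
      have h4 : ((ρ : ℂ) ^ 2 - 1) * E₄ ρ = 0 := by linear_combination -h1
      rcases mul_eq_zero.mp h4 with h5 | h5
      · linear_combination h5
      · exact absurd h5 hne
    have h6 : (ρ : ℂ) = -2 := by linear_combination hρ - h3
    rw [h6] at h3
    norm_num at h3
  have hj : jInv ρ = 0 := by
    unfold jInv
    rw [hE]
    simp
  rw [← hj, isCM_jInv]
  exact ⟨1, 1, 1, one_ne_zero, by push_cast; linear_combination hρ⟩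

end Pool.Agent.Lib.MP_a325a5_ag.MU
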