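import Pool.Agent.Lib.MP_a325a5_ag.MU.AN.Surj
import Pool.Agent.Lib.MP_a325a5_ag.MU.AN.Act
import Pool.Agent.Lib.MP_a325a5_ag.MU.AN.Mat
import Pool.Agent.Lib.MP_a325a5_ag.MU.AN.Quad
import Pool.Agent.Lib.MP_a325a5_ag.MU.AN.Cpx

/-! The axioms over `ℂ`, second part: everything by `act_inj`. -/

set_option autoImplicit false

namespace Pool.Agent.Lib.MP_a325a5_ag.MU

open Polynomial UpperHalfPlane MatrixGroups

/-! ### The axioms over `ℂ`, second part -/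

theorem trans_C {N M : ℕ} {x y z : ℂ} (hN : 1 ≤ N) (hM : 1 ≤ M) (h1 : phi N x y = 0)
    (h2 : phi M y z = 0) : Isog x z := by
  obtain ⟨τ, rfl⟩ := jInv_surj x
  obtain ⟨A, τ₁, hA, hdA, hAτ, rfl⟩ := (phi_act hN τ y).mp h1
  obtain ⟨B, τ₂, hB, hdB, hBτ, rfl⟩ := (phi_act hM τ₁ z).mp h2
  have hdet : 0 < (B * A).det := by
    rw [Matrix.det_mul, hdA, hdB]
    exact_mod_cast Nat.mul_pos hM hN
  obtain ⟨m, C, hm, hC, hdC, hBA⟩ := exists_prim (B * A) hdet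
  have hact : Act C τ τ₂ := by
    have h3 := hAτ.mul hBτ
    rw [hBA] at h3
    exact h3.of_smul hm.ne'
  refine ⟨C.det.toNat, ?_, ?_⟩
  · omega
  · rw [phi_act (by omega)]
    exact ⟨C, τ₂, hC, by omega, hact, rfl⟩

theorem uniq_C {N M : ℕ} {x y : ℂ} (hN : 1 ≤ N) (hM : 1 ≤ M) (hNM : N ≠ M) (h1 : phi N x y = 0)
    (h2 : phi M x y = 0) : IsCM x := by
  obtain ⟨τ, rfl⟩ := jInv_surj x
  obtain ⟨A, τ₁, hA, hdA, hAτ, rfl⟩ := (phi_act hN τ y).mp h1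
  obtain ⟨B, τ₂, hB, hdB, hBτ, hy⟩ := (phi_act hM τ _).mp h2
  rw [isCM_jInv]
  by_contra hq
  obtain ⟨γ, hγ⟩ := act_inj hA hB (by rw [hdA]; exact_mod_cast hN)
    (by rw [hdB]; exact_mod_cast hM) hq hAτ hBτ hy
  apply hNM
  have h3 := congrArg Matrix.det hγ
  rw [Matrix.det_mul, γ.2, one_mul, hdA, hdB] at h3
  exact_mod_cast h3

theorem simple_C {N : ℕ} {x y : ℂ} (hN : 1 ≤ N) (h1 : phi N x y = 0) (h2 : dphi N x y = 0) :
    IsCM x := by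
  obtain ⟨τ, rfl⟩ := jInv_surj x
  obtain ⟨t, ht, t', ht', hne, hy, hy'⟩ := dphi_jInv hN τ y h1 h2
  rw [isCM_jInv]
  by_contra hq
  obtain ⟨γ, hγ⟩ := act_inj (prim_tm ht) (prim_tm ht') (by rw [det_tm ht]; exact_mod_cast hN)
    (by rw [det_tm ht']; exact_mod_cast hN) hq (act_tpt hN ht τ) (act_tpt hN ht' τ)
    (hy.symm.trans hy')
  exact hne (triple_unique hN ht ht' γ hγ)

theorem cm_C {N : ℕ} {x y : ℂ} (hN : 1 ≤ N) (h1 : phi N x y = 0) (h2 : IsCM x) : IsCM y := by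
  obtain ⟨τ, rfl⟩ := jInv_surj x
  obtain ⟨A, τ₁, hA, hdA, hAτ, rfl⟩ := (phi_act hN τ y).mp h1
  rw [isCM_jInv] at h2 ⊢
  exact quad_act (by rw [hdA]; exact_mod_cast (by omega : N ≠ 0)) hAτ h2

end Pool.Agent.Lib.MP_a325a5_ag.MU
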