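import Pool.Agent.Lib.MP_a325a5_ag.MU.Mod

/-! Integral matrices and their action on the upper half-plane: definitions. -/

set_option autoImplicit false

namespace Pool.Agent.Lib.MP_a325a5_ag.MU

open UpperHalfPlane MatrixGroups

/-- The integral matrix `A` with rows `(a, b)`, `(c, d)` maps `τ` to `τ'`:
`τ' (c τ + d) = a τ + b`. -/
def Act (A : Matrix (Fin 2) (Fin 2) ℤ) (τ τ' : ℍ) : Prop :=
  (τ' : ℂ) * ((A 1 0 : ℂ) * τ + (A 1 1 : ℂ)) = (A 0 0 : ℂ) * τ + (A 0 1 : ℂ)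

/-- The matrix of a triple. -/
def tm (t : ℕ × ℕ × ℕ) : Matrix (Fin 2) (Fin 2) ℤ := !![(t.1 : ℤ), (t.2.1 : ℤ); 0, (t.2.2 : ℤ)]

/-- The entries of the matrix have no common divisor except `±1`. -/
def Prim (A : Matrix (Fin 2) (Fin 2) ℤ) : Prop :=
  ∀ m : ℤ, m ∣ A 0 0 → m ∣ A 0 1 → m ∣ A 1 0 → m ∣ A 1 1 → IsUnit m

/-- The matrix is a multiple of the unit matrix. -/
def Scal (A : Matrix (Fin 2) (Fin 2) ℤ) : Prop := A 0 1 = 0 ∧ A 1 0 = 0 ∧ A 0 0 = A 1 1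

/-- `τ` is imaginary quadratic. -/
def Quad (τ : ℍ) : Prop :=
  ∃ a b c : ℤ, a ≠ 0 ∧ (a : ℂ) * (τ : ℂ) ^ 2 + (b : ℂ) * τ + (c : ℂ) = 0

end Pool.Agent.Lib.MP_a325a5_ag.MU
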