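import Pool.Agent.Lib.MP_a325a5_ag.MU.Mod

/-! Transfer: a finitely generated field of characteristic zero embeds in `ℂ`, and the values of the
modular polynomials are compatible with embeddings. -/

set_option autoImplicit false

namespace Pool.Agent.Lib.MP_a325a5_ag.MU

open Polynomial Cardinal

/-- A countable field of characteristic zero embeds in `ℂ`: the algebraic closure of the field of
rational functions in continuum many variables over it is isomorphic to `ℂ`. -/
private theorem tr_countable (K : Type) [Field K] [CharZero K] (hK : #K ≤ ℵ₀) :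
    Nonempty (K →+* ℂ) := by
  let R := MvPolynomial ℂ K
  let F := FractionRing R
  let M := AlgebraicClosure F
  have hC : ℵ₀ < (#ℂ : Cardinal.{0}) := by
    rw [Cardinal.mk_complex]
    exact Cardinal.aleph0_lt_continuum
  have h1 : #R = #ℂ := by
    change #(MvPolynomial ℂ K) = #ℂ
    rw [MvPolynomial.cardinalMk_eq_max]
    rw [max_eq_right (hK.trans hC.le), max_eq_left hC.le]
  have h2 : #F = #ℂ := by
    rw [← h1]
    exact IsFractionRing.cardinalMk R F
  have h3 : #M = #ℂ := by
    apply le_antisymm
    · calc #M ≤ max #F ℵ₀ := Algebra.IsAlgebraic.cardinalMk_le_max F M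
        _ = #ℂ := by rw [h2, max_eq_left hC.le]
    · rw [← h2]
      exact Cardinal.mk_le_of_injective (algebraMap F M).injective
  let g : K →+* M := (algebraMap F M).comp ((algebraMap R F).comp MvPolynomial.C)
  have : CharZero M := charZero_of_injective_ringHom g.injective
  obtain ⟨e⟩ := IsAlgClosed.ringEquiv_of_equiv_of_charZero (K := M) (L := ℂ) (by rw [h3]; exact hC)
    (Cardinal.eq.1 h3)
  exact ⟨e.toRingHom.comp g⟩

/-- Every finitely generated subfield of a field of characteristic zero embeds in `ℂ`. -/
theorem exists_embedding (L : Type) [Field L] [CharZero L] (s : Finset L) :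
    ∃ (K : IntermediateField ℚ L) (_ : K →+* ℂ), ∀ x ∈ s, x ∈ K := by
  have h1 : #(IntermediateField.adjoin ℚ (s : Set L)) ≤ ℵ₀ := by
    refine (IntermediateField.cardinalMk_adjoin_le ℚ (s : Set L)).trans ?_
    refine max_le (max_le (Cardinal.mk_le_aleph0) ?_) le_rfl
    exact Cardinal.mk_le_aleph0_iff.2 (Set.countable_coe_iff.2 s.countable_toSet)
  obtain ⟨g⟩ := tr_countable (IntermediateField.adjoin ℚ (s : Set L)) h1
  exact ⟨IntermediateField.adjoin ℚ (s : Set L), g, fun x hx =>
    IntermediateField.subset_adjoin ℚ _ hx⟩

private theorem tr_eval {L L' : Type} [Field L] [CharZero L] [Field L'] [CharZero L']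
    (f : L →+* L') (x : L) : f.comp (eval₂RingHom (Rat.castHom L) x) =
      eval₂RingHom (Rat.castHom L') (f x) := by
  apply Polynomial.ringHom_ext
  · intro a
    simp
  · simp

theorem phi_map {L L' : Type} [Field L] [CharZero L] [Field L'] [CharZero L'] (f : L →+* L')
    (N : ℕ) (x y : L) : phi N (f x) (f y) = f (phi N x y) := by
  rw [phi, phi, Polynomial.hom_eval₂, tr_eval]

theorem dphi_map {L L' : Type} [Field L] [CharZero L] [Field L'] [CharZero L'] (f : L →+* L')
    (N : ℕ) (x y : L) : dphi N (f x) (f y) = f (dphi N x y) := by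
  rw [dphi, dphi, Polynomial.hom_eval₂, tr_eval]

theorem isCM_map {L L' : Type} [Field L] [CharZero L] [Field L'] [CharZero L'] (f : L →+* L')
    (x : L) : IsCM (f x) ↔ IsCM x := by
  refine exists_congr fun N => and_congr_right fun _ => ?_
  rw [phi_map, map_eq_zero_iff f f.injective]

theorem isog_map {L L' : Type} [Field L] [CharZero L] [Field L'] [CharZero L'] (f : L →+* L')
    (x y : L) : Isog (f x) (f y) ↔ Isog x y := by
  refine exists_congr fun N => and_congr_right fun _ => ?_
  rw [phi_map, map_eq_zero_iff f f.injective]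

end Pool.Agent.Lib.MP_a325a5_ag.MU
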