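import Pool.Agent.Lib.MP_a325a5_ag.MU.AN.AxC
import Pool.Agent.Lib.MP_a325a5_ag.MU.AN.AxD
import Pool.Agent.Lib.MP_a325a5_ag.MU.AN.Tr

/-! The facts on the modular polynomials over an arbitrary field of characteristic zero, from the
facts over `ℂ`. -/

set_option autoImplicit false

namespace Pool.Agent.Lib.MP_a325a5_ag.MU

private theorem phi_iff {L L' : Type} [Field L] [CharZero L] [Field L'] [CharZero L']
    (f : L →+* L') {N : ℕ} {x y : L} : phi N (f x) (f y) = 0 ↔ phi N x y = 0 := by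
  rw [phi_map, map_eq_zero]

private theorem dphi_iff {L L' : Type} [Field L] [CharZero L] [Field L'] [CharZero L']
    (f : L →+* L') {N : ℕ} {x y : L} : dphi N (f x) (f y) = 0 ↔ dphi N x y = 0 := by
  rw [dphi_map, map_eq_zero]

private theorem exists_model (L : Type) [Field L] [CharZero L] (x y z : L) :
    ∃ (K : Type) (_ : Field K) (_ : CharZero K) (i : K →+* L) (_ : K →+* ℂ) (x' y' z' : K),
      i x' = x ∧ i y' = y ∧ i z' = z := by
  classical
  obtain ⟨K, g, hK⟩ := exists_embedding L {x, y, z}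
  exact ⟨K, inferInstance, inferInstance, algebraMap K L, g, ⟨x, hK x (by simp)⟩,
    ⟨y, hK y (by simp)⟩, ⟨z, hK z (by simp)⟩, rfl, rfl, rfl⟩

/-- The facts on the modular polynomials. -/
theorem modAx : ModAx where
  monic N hN := monic_modPoly hN
  diag N hN := diag_modPoly hN
  refl L _ _ x := by
    obtain ⟨K, _, _, i, g, x, _, _, rfl, -, -⟩ := exists_model L x x x
    exact (phi_iff i).2 ((phi_iff g).1 (refl_C _))
  symm L _ _ N x y hN h := by
    obtain ⟨K, _, _, i, g, x, y, _, rfl, rfl, -⟩ := exists_model L x y y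
    exact (phi_iff i).2 ((phi_iff g).1 (symm_C hN ((phi_iff g).2 ((phi_iff i).1 h))))
  trans L _ _ N M x y z hN hM h1 h2 := by
    obtain ⟨K, _, _, i, g, x, y, z, rfl, rfl, rfl⟩ := exists_model L x y z
    exact (isog_map i x z).2 ((isog_map g x z).1 (trans_C hN hM
      ((phi_iff g).2 ((phi_iff i).1 h1)) ((phi_iff g).2 ((phi_iff i).1 h2))))
  uniq L _ _ N M x y hN hM hNM h1 h2 := by
    obtain ⟨K, _, _, i, g, x, y, _, rfl, rfl, -⟩ := exists_model L x y y
    exact (isCM_map i x).2 ((isCM_map g x).1 (uniq_C hN hM hNM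
      ((phi_iff g).2 ((phi_iff i).1 h1)) ((phi_iff g).2 ((phi_iff i).1 h2))))
  simple L _ _ N x y hN h1 h2 := by
    obtain ⟨K, _, _, i, g, x, y, _, rfl, rfl, -⟩ := exists_model L x y y
    exact (isCM_map i x).2 ((isCM_map g x).1 (simple_C hN
      ((phi_iff g).2 ((phi_iff i).1 h1)) ((dphi_iff g).2 ((dphi_iff i).1 h2))))
  cm L _ _ N x y hN h1 h2 := by
    obtain ⟨K, _, _, i, g, x, y, _, rfl, rfl, -⟩ := exists_model L x y y
    exact (isCM_map i y).2 ((isCM_map g y).1 (cm_C hN
      ((phi_iff g).2 ((phi_iff i).1 h1)) ((isCM_map g x).2 ((isCM_map i x).1 h2))))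
  cm_zero L _ _ := by
    have h : IsCM (0 : ℚ) := by
      rw [← isCM_map (Rat.castHom ℂ), map_zero]
      exact cm_zero_C
    have h' := (isCM_map (Rat.castHom L) 0).2 h
    rwa [map_zero] at h'

end Pool.Agent.Lib.MP_a325a5_ag.MU
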