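import Pool.Agent.Lib.MP_a325a5_ag.MU.AN.Quad
import Pool.Agent.Lib.MP_a325a5_ag.MU.AN.Prod

/-! N9: the modular polynomial over `ℂ` is determined by one relation. -/

set_option autoImplicit false

namespace Pool.Agent.Lib.MP_a325a5_ag.MU

open Polynomial UpperHalfPlane MatrixGroups

/-- Two polynomials over `ℂ[X]` which agree at infinitely many values of `X` are equal. -/
private theorem uniq_eq_of_infinite {P Q : ℂ[X][X]} {S : Set ℂ} (hS : S.Infinite)
    (h : ∀ x ∈ S, P.map (evalRingHom x) = Q.map (evalRingHom x)) : P = Q := by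
  ext1 i
  refine eq_of_infinite_eval_eq _ _ (hS.mono fun x hx => ?_)
  have h1 := congrArg (fun R : ℂ[X] => R.coeff i) (h x hx)
  simp only [coeff_map, coe_evalRingHom] at h1
  exact h1

/-- `jInv (N γ τ)` for a suitable `γ` is `jInv (tpt t τ)`. -/
private theorem uniq_transit {N : ℕ} (hN : 1 ≤ N) {t : ℕ × ℕ × ℕ} (ht : t ∈ triples N) (τ : ℍ) :
    ∃ γ : SL(2, ℤ), jInv (tpt (N, 0, 1) (γ • τ)) = jInv (tpt t τ) := by
  obtain ⟨γ, δ, h⟩ := exists_transit hN ht
  have hN0 : (N, 0, 1) ∈ triples N := by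
    simp only [triples, Finset.mem_filter, Finset.mem_product, Finset.mem_range]
    refine ⟨⟨by omega, by omega, by omega⟩, by omega, by omega, ?_⟩
    simp
  have h1 : Act (tm (N, 0, 1) * γ.1) τ (tpt (N, 0, 1) (γ • τ)) :=
    (act_sl γ τ).mul (act_tpt hN hN0 (γ • τ))
  have h2 : Act (δ.1 * tm t) τ (δ • tpt t τ) :=
    (act_tpt hN ht τ).mul (act_sl δ (tpt t τ))
  rw [h] at h1
  have h3 : (δ.1 * tm t).det ≠ 0 := by
    rw [Matrix.det_mul, det_tm ht, δ.2, one_mul]
    exact_mod_cast (by omega : N ≠ 0)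
  refine ⟨γ, ?_⟩
  rw [Act.unique h3 h1 h2, jInv_sl]

/-- The values `jInv (tpt t τ)` are distinct if `τ` is not quadratic. -/
private theorem uniq_inj {N : ℕ} (hN : 1 ≤ N) {τ : ℍ} (hq : ¬ Quad τ) :
    Set.InjOn (fun t => jInv (tpt t τ)) (triples N : Set (ℕ × ℕ × ℕ)) := by
  intro t ht t' ht' h
  have hd : ∀ s ∈ triples N, 0 < (tm s).det := by
    intro s hs
    rw [det_tm hs]
    exact_mod_cast hN
  obtain ⟨γ, hγ⟩ := act_inj (prim_tm ht) (prim_tm ht') (hd t ht) (hd t' ht') hq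
    (act_tpt hN ht τ) (act_tpt hN ht' τ) h
  exact triple_unique hN ht ht' γ hγ

/-- The modular polynomial over `ℂ` is the only monic polynomial of its degree with
`P(j(τ), j(N τ)) = 0` for all `τ`. -/
theorem cpoly_unique {N : ℕ} (hN : 1 ≤ N) (P Q : ℂ[X][X]) (hP : P.Monic)
    (hdeg : P.natDegree = psi N) (h0 : ∀ τ : ℍ, ((P.map (evalRingHom (jInv τ))).eval
      (jInv (tpt (N, 0, 1) τ))) = 0)
    (hQ : ∀ τ : ℍ, Q.map (evalRingHom (jInv τ)) = ∏ t ∈ triples N, (X - C (jInv (tpt t τ)))) :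
    P = Q := by
  classical
  refine uniq_eq_of_infinite jInv_not_quad_infinite ?_
  rintro x ⟨τ, hq, rfl⟩
  rw [hQ τ]
  have hinj := uniq_inj hN hq
  have hm : (P.map (evalRingHom (jInv τ))).Monic := hP.map _
  have hd : (P.map (evalRingHom (jInv τ))).natDegree = psi N := by
    rw [hP.natDegree_map, hdeg]
  have hroot : ∀ t ∈ triples N, (P.map (evalRingHom (jInv τ))).IsRoot (jInv (tpt t τ)) := by
    intro t ht
    obtain ⟨γ, hγ⟩ := uniq_transit hN ht τ
    have h1 := h0 (γ • τ)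
    rw [jInv_sl, hγ] at h1
    exact h1
  have hprod : ∏ t ∈ triples N, (X - C (jInv (tpt t τ))) =
      ∏ y ∈ (triples N).image (fun t => jInv (tpt t τ)), (X - C y) := by
    rw [Finset.prod_image hinj]
  rw [hprod]
  have hsub : (triples N).image (fun t => jInv (tpt t τ)) ⊆
      (P.map (evalRingHom (jInv τ))).roots.toFinset := by
    intro y hy
    obtain ⟨t, ht, rfl⟩ := Finset.mem_image.1 hy
    rw [Multiset.mem_toFinset, mem_roots hm.ne_zero]
    exact hroot t ht
  have hcard : ((triples N).image (fun t => jInv (tpt t τ))).card = psi N := by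
    rw [Finset.card_image_of_injOn hinj]
    rfl
  have hdvd : ∏ y ∈ (triples N).image (fun t => jInv (tpt t τ)), (X - C y) ∣
      P.map (evalRingHom (jInv τ)) := by
    refine Finset.prod_dvd_of_coprime ?_ ?_
    · intro a _ b _ hab
      exact pairwise_coprime_X_sub_C (fun _ _ h => h) hab
    · intro y hy
      obtain ⟨t, ht, rfl⟩ := Finset.mem_image.1 hy
      exact dvd_iff_isRoot.2 (hroot t ht)
  have hmQ : (∏ y ∈ (triples N).image (fun t => jInv (tpt t τ)), (X - C y)).Monic :=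
    monic_prod_of_monic _ _ fun y _ => monic_X_sub_C y
  refine eq_of_monic_of_dvd_of_natDegree_le hmQ hm hdvd ?_
  rw [hd, natDegree_prod_of_monic _ _ fun y _ => monic_X_sub_C y]
  simp [hcard]

/-- A monic polynomial over `ℂ[X]` from the values at `jInv`. -/
theorem cpoly_monic {N : ℕ} (hN : 1 ≤ N) (Q : ℂ[X][X])
    (hQ : ∀ τ : ℍ, Q.map (evalRingHom (jInv τ)) = ∏ t ∈ triples N, (X - C (jInv (tpt t τ)))) :
    Q.Monic ∧ Q.natDegree = psi N := by
  have hcoef : ∀ (i : ℕ) (c : ℂ), (∀ τ : ℍ, (∏ t ∈ triples N, (X - C (jInv (tpt t τ)))).coeff i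
      = c) → Q.coeff i = C c := by
    intro i c hc
    refine eq_of_infinite_eval_eq _ _ (jInv_not_quad_infinite.mono fun x hx => ?_)
    obtain ⟨τ, -, rfl⟩ := hx
    have h1 := congrArg (fun R : ℂ[X] => R.coeff i) (hQ τ)
    simp only [coeff_map, coe_evalRingHom] at h1
    change eval (jInv τ) (Q.coeff i) = eval (jInv τ) (C c)
    rw [h1, hc τ, eval_C]
  have hd : ∀ τ : ℍ, (∏ t ∈ triples N, (X - C (jInv (tpt t τ)))).natDegree = psi N := by
    intro τ
    rw [natDegree_prod_of_monic _ _ fun y _ => monic_X_sub_C _]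
    simp [psi]
  have hm : ∀ τ : ℍ, (∏ t ∈ triples N, (X - C (jInv (tpt t τ)))).Monic := fun τ =>
    monic_prod_of_monic _ _ fun y _ => monic_X_sub_C _
  have h1 : Q.coeff (psi N) = 1 := by
    rw [hcoef (psi N) 1 fun τ => ?_, C_1]
    have h2 := hm τ
    rw [Monic, leadingCoeff, hd τ] at h2
    exact h2
  have h2 : Q.natDegree ≤ psi N := by
    rw [natDegree_le_iff_coeff_eq_zero]
    intro i hi
    rw [hcoef i 0 fun τ => coeff_eq_zero_of_natDegree_lt (by rw [hd τ]; exact hi), C_0]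
  have h3 : Q.natDegree = psi N := by
    refine le_antisymm h2 (le_natDegree_of_ne_zero ?_)
    rw [h1]
    exact one_ne_zero
  refine ⟨?_, h3⟩
  rw [Monic, leadingCoeff, h3, h1]

end Pool.Agent.Lib.MP_a325a5_ag.MU
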